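import Pool.Agent.W353.EF.Defs

/-!
# The edge of the L-functions of the products of two varieties: definitions

`Y` and `Y'` are smooth projective varieties over a number field `K`.  By the theorem of Künneth
`H^i(Y × Y')` is the sum of the spaces `H^k(Y) ⊗ H^l(Y')`, `k + l = i`.
-/

set_option autoImplicit false

namespace Pool.Agent.J4.H34.ED

open NumberField IsDedekindDomain Filter Topology Polynomial
open Pool.Agent.W353.EF (IsFrobenius)

section
variable {K : Type} [Field K] [NumberField K] {n n' : ℕ}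

/-- `α k 1, …, α k (b k)` are, for `k = 0, …, 2d`, the eigenvalues of the geometric Frobenius at the
prime `v` of `K` on `H^k(Y)`, for the variety `Y` of dimension `d` over `K` with the equations `X`
and the Betti numbers `b k` (see `IsFrobenius` in `Pool.Agent.W353.EF.Defs`); `H^0(Y)` is a line with
eigenvalue `1`; and Poincaré duality holds: the eigenvalues on `H^{2d-k}(Y)` are the numbers
`q_v ^ d / α`, `α` an eigenvalue on `H^k(Y)`.  By the theorems of Grothendieck and Deligne such `α`
exist at almost all primes if `Y` is smooth, projective and geometrically connected. -/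
def IsCohomology (X : Set (MvPolynomial (Fin n) (𝓞 K))) (d : ℕ) (b : ℕ → ℕ)
    (v : HeightOneSpectrum (𝓞 K)) (α : (k : ℕ) → Fin (b k) → ℂ) : Prop :=
  (b 0 = 1 ∧ ∀ j, α 0 j = 1) ∧ ∀ k ≤ 2 * d, IsFrobenius X d k v (α k) ∧
    Finset.univ.val.map (α (2 * d - k)) =
      Finset.univ.val.map fun j => (Ideal.absNorm v.asIdeal : ℂ) ^ d / α k j

/-- The pairs `(k, l)` with `k + l = i`, `k ≤ 2d`, `l ≤ 2d'`. -/
def degrees (d d' i : ℕ) : Finset (ℕ × ℕ) :=
  (Finset.range (2 * d + 1) ×ˢ Finset.range (2 * d' + 1)).filter fun k => k.1 + k.2 = i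

/-- The polynomials `B v` are the Euler factors of `L(H^i(Y × Y'), s)` for the varieties `Y` and `Y'`
over `K` of dimensions `d` and `d'`, with the equations `X` and `X'` and the Betti numbers `b` and
`b'`: for almost all primes `v`, `B_v(z) = ∏ (1 - α β z)`, where `α` and `β` run through the
eigenvalues of Frobenius on `H^k(Y)` and on `H^l(Y')`, `k + l = i`; at the other primes `B v` is an
arbitrary polynomial, and no factor `1 / B_v(q_v^{-s})` has a pole at `s = i/2 + 1`. -/
def IsProductSystem (X : Set (MvPolynomial (Fin n) (𝓞 K))) (d : ℕ) (b : ℕ → ℕ)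
    (X' : Set (MvPolynomial (Fin n') (𝓞 K))) (d' : ℕ) (b' : ℕ → ℕ) (i : ℕ)
    (B : HeightOneSpectrum (𝓞 K) → ℂ[X]) : Prop :=
  (∀ᶠ v in cofinite, ∃ (α : (k : ℕ) → Fin (b k) → ℂ) (β : (k : ℕ) → Fin (b' k) → ℂ),
    IsCohomology X d b v α ∧ IsCohomology X' d' b' v β ∧
    ∀ z : ℂ, (B v).eval z =
      ∏ k ∈ degrees d d' i, ∏ j, ∏ l, (1 - α k.1 j * β k.2 l * z)) ∧
  ∀ v, (B v).eval ((Ideal.absNorm v.asIdeal : ℂ) ^ (-((i : ℂ) / 2 + 1))) ≠ 0

end

end Pool.Agent.J4.H34.ED
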