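import Pool.Agent.J4.H34.ED.Prod
import Pool.Agent.W353.PV.Ord

/-! Positivity of the sizes of the `L`-functions of products. -/

set_option autoImplicit false

namespace Pool.Agent.J4.H34.ED

open Complex Filter Topology ComplexConjugate NumberField IsDedekindDomain Polynomial
open Pool.Agent.W540.BE Pool.Agent.W353.L1 Pool.Agent.W401.Cheb
open Pool.Agent.H341R2 (lam lam_tendsto)
open Pool.Agent.W353.PV (Eig alp tF pick_spec lim_ord)
open Pool.Agent.W353.EF (IsFrobenius LFun size HasOrder)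

section
variable {K : Type} [Field K] [NumberField K]

/-- the limit of the sizes -/
theorem size_lim {i : ℕ} {B : HeightOneSpectrum (𝓞 K) → ℂ[X]}
    (hne : ∀ᶠ ε : ℝ in 𝓝[>] 0, LFun B ((i : ℂ) / 2 + 1 + ε) ≠ 0) {r : ℤ}
    (hr : HasOrder i B (-r)) : Tendsto (size i B) (𝓝[>] 0) (𝓝 (r : ℝ)) := by
  obtain ⟨Λ, h1, h2, h3⟩ := hr
  have e0 : ((i : ℂ) / 2 + 1).re = (i : ℝ) / 2 + 1 := by
    have : ((i : ℂ) / 2 + 1) = (((i : ℝ) / 2 + 1 : ℝ) : ℂ) := by push_cast; rfl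
    rw [this, Complex.ofReal_re]
  have l1 := lim_ord hne h1 (h2.mono fun s hs hs' => hs (by rw [e0] at hs'; exact hs')) h3
  refine (l1.congr fun ε => rfl).trans (le_of_eq ?_)
  congr 1
  push_cast
  ring

variable {n n' : ℕ}
  {X : Set (MvPolynomial (Fin n) (𝓞 K))} {X' : Set (MvPolynomial (Fin n') (𝓞 K))}
  {d d' : ℕ} {b b' : ℕ → ℕ}

/-- the trace as a function on the circle -/
noncomputable def ff (X : Set (MvPolynomial (Fin n) (𝓞 K))) (d : ℕ) (b : ℕ → ℕ) (θ : ℝ)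
    (v : HeightOneSpectrum (𝓞 K)) : ℝ :=
  ∑ k ∈ Finset.range (2 * d + 1), tF X d k (b k) K v * Real.cos (((k : ℝ) - d) * θ)

/-- the sine part -/
noncomputable def gg (X : Set (MvPolynomial (Fin n) (𝓞 K))) (d : ℕ) (b : ℕ → ℕ) (θ : ℝ)
    (v : HeightOneSpectrum (𝓞 K)) : ℝ :=
  ∑ k ∈ Finset.range (2 * d + 1), tF X d k (b k) K v * Real.sin (((k : ℝ) - d) * θ)

theorem gg_zero {v : HeightOneSpectrum (𝓞 K)} {α : (k : ℕ) → Fin (b k) → ℂ}
    (h : IsCohomology X d b v α) (θ : ℝ) : gg X d b θ v = 0 := by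
  have h1 : gg X d b θ v = -gg X d b θ v := by
    unfold gg
    conv_lhs => rw [← Finset.sum_range_reflect]
    rw [← Finset.sum_neg_distrib]
    refine Finset.sum_congr rfl fun k hk => ?_
    have hk' : k ≤ 2 * d := by
      have := Finset.mem_range.1 hk
      omega
    have e : 2 * d + 1 - 1 - k = 2 * d - k := by omega
    rw [e, tF_dual h hk']
    have e2 : (((2 * d - k : ℕ) : ℝ) - d) * θ = -(((k : ℝ) - d) * θ) := by
      rw [Nat.cast_sub hk']
      push_cast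
      ring
    rw [e2, Real.sin_neg]
    ring
  linarith

theorem cos_sum (θ : ℝ) (v : HeightOneSpectrum (𝓞 K)) :
    ∑ i ∈ Finset.range (2 * d + 2 * d' + 1), Real.cos (((i : ℝ) - d - d') * θ) *
      TT X d b X' d' b' i v =
    ff X d b θ v * ff X' d' b' θ v - gg X d b θ v * gg X' d' b' θ v := by
  have h1 : ∀ i ∈ Finset.range (2 * d + 2 * d' + 1), Real.cos (((i : ℝ) - d - d') * θ) *
      TT X d b X' d' b' i v = ∑ k ∈ degrees d d' i,
        (tF X d k.1 (b k.1) K v * Real.cos (((k.1 : ℝ) - d) * θ) *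
          (tF X' d' k.2 (b' k.2) K v * Real.cos (((k.2 : ℝ) - d') * θ)) -
        tF X d k.1 (b k.1) K v * Real.sin (((k.1 : ℝ) - d) * θ) *
          (tF X' d' k.2 (b' k.2) K v * Real.sin (((k.2 : ℝ) - d') * θ))) := by
    intro i _
    unfold TT
    rw [Finset.mul_sum]
    refine Finset.sum_congr rfl fun k hk => ?_
    obtain ⟨_, _, g3⟩ := mem_degrees hk
    have e : ((i : ℝ) - d - d') * θ = ((k.1 : ℝ) - d) * θ + ((k.2 : ℝ) - d') * θ := by
      rw [← g3]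
      push_cast
      ring
    rw [e, Real.cos_add]
    ring
  rw [Finset.sum_congr rfl h1]
  unfold degrees
  rw [Finset.sum_fiberwise_of_maps_to (g := fun k : ℕ × ℕ => k.1 + k.2) (by
    intro k hk
    rw [Finset.mem_product, Finset.mem_range, Finset.mem_range] at hk
    rw [Finset.mem_range]
    omega)]
  rw [Finset.sum_product]
  unfold ff gg
  rw [Finset.sum_mul_sum, Finset.sum_mul_sum, ← Finset.sum_sub_distrib]
  refine Finset.sum_congr rfl fun x _ => ?_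
  rw [← Finset.sum_sub_distrib]

end

section
variable {K : Type} [Field K] [NumberField K] {ι : Type} [Fintype ι] {n : ι → ℕ}
  {X : ∀ j, Set (MvPolynomial (Fin (n j)) (𝓞 K))} {d : ι → ℕ} {b : ι → ℕ → ℕ}
  {B : ι → ι → ℕ → HeightOneSpectrum (𝓞 K) → ℂ[X]}

/-- linear combinations of sizes -/
theorem comb_size {κ : Type*} (T : Finset κ) (a : κ → ℝ) (τ : κ → HeightOneSpectrum (𝓞 K) → ℝ)
    (C : κ → ℝ) (hτ : ∀ x v, |τ x v| ≤ C x) (s : κ → ℝ → ℝ)
    (hs : ∀ x ∈ T, Tendsto (fun ε : ℝ => EP (nm K) ε (τ x) / lam ε - s x ε) (𝓝[>] 0) (𝓝 0))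
    (A : ℝ) (hpos : ∀ᶠ v in cofinite, A ≤ ∑ x ∈ T, a x * τ x v) {η : ℝ} (hη : 0 < η) :
    ∀ᶠ ε : ℝ in 𝓝[>] 0, A - η ≤ ∑ x ∈ T, a x * s x ε := by
  have h1 : Tendsto (fun ε : ℝ => ∑ x ∈ T, a x * (EP (nm K) ε (τ x) / lam ε - s x ε))
      (𝓝[>] 0) (𝓝 0) := by
    have := tendsto_finsetSum T fun x hx => (hs x hx).const_mul (a x)
    simpa using this
  have hb : ∀ x ∈ T, ∀ v, |a x * τ x v| ≤ |a x| * C x := fun x _ v => by
    rw [abs_mul]
    exact mul_le_mul_of_nonneg_left (hτ x v) (abs_nonneg _)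
  have hS : ∀ v, |∑ x ∈ T, a x * τ x v| ≤ ∑ x ∈ T, |a x| * C x := fun v =>
    (Finset.abs_sum_le_sum_abs _ _).trans (Finset.sum_le_sum fun x hx => hb x hx v)
  have h2 := EP_lower (K := K) (φ := fun v => ∑ x ∈ T, a x * τ x v) (ψ := fun _ => A) (C := |A|)
    hS (fun _ => le_rfl) hpos (show (0 : ℝ) < η / 3 by positivity)
  filter_upwards [h2, h1.eventually_lt_const (show (0 : ℝ) < η / 3 by positivity),
    (EP_const (K := K) A).eventually_const_lt (show A - η / 3 < A by linarith),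
    self_mem_nhdsWithin] with ε g1 g2 g3 hε
  have hε0 : (0 : ℝ) < ε := hε
  have e1 : EP (nm K) ε (fun v => ∑ x ∈ T, a x * τ x v) = ∑ x ∈ T, a x * EP (nm K) ε (τ x) := by
    rw [EP_sum normSys hε0 T (fun x v => a x * τ x v) (fun x => |a x| * C x) hb]
    exact Finset.sum_congr rfl fun x _ => EP_const_mul _ _
  have e2 : ∑ x ∈ T, a x * (EP (nm K) ε (τ x) / lam ε - s x ε) =
      EP (nm K) ε (fun v => ∑ x ∈ T, a x * τ x v) / lam ε - ∑ x ∈ T, a x * s x ε := by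
    rw [e1, Finset.sum_div, ← Finset.sum_sub_distrib]
    exact Finset.sum_congr rfl fun x _ => by ring
  rw [e2] at g2
  linarith

/-- the limit form -/
theorem comb_lim {κ : Type*} (T : Finset κ) (a : κ → ℝ) (τ : κ → HeightOneSpectrum (𝓞 K) → ℝ)
    (C : κ → ℝ) (hτ : ∀ x v, |τ x v| ≤ C x) (s : κ → ℝ → ℝ)
    (hs : ∀ x ∈ T, Tendsto (fun ε : ℝ => EP (nm K) ε (τ x) / lam ε - s x ε) (𝓝[>] 0) (𝓝 0))
    (A : ℝ) (hpos : ∀ᶠ v in cofinite, A ≤ ∑ x ∈ T, a x * τ x v) (r : κ → ℝ)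
    (hr : ∀ x ∈ T, Tendsto (s x) (𝓝[>] 0) (𝓝 (r x))) : A ≤ ∑ x ∈ T, a x * r x := by
  have h1 : Tendsto (fun ε : ℝ => ∑ x ∈ T, a x * s x ε) (𝓝[>] 0) (𝓝 (∑ x ∈ T, a x * r x)) :=
    tendsto_finsetSum T fun x hx => (hr x hx).const_mul (a x)
  refine le_of_forall_pos_le_add fun η hη => ?_
  have h2 := ge_of_tendsto h1 (comb_size T a τ C hτ s hs A hpos hη)
  linarith

theorem eventually_cohomology (hB : ∀ j k, ∀ i ≤ 2 * d j + 2 * d k,
      IsProductSystem (X j) (d j) (b j) (X k) (d k) (b k) i (B j k i)) :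
    ∀ᶠ v in cofinite, ∀ j, ∃ α, IsCohomology (X j) (d j) (b j) v α := by
  rw [Filter.eventually_all]
  intro j
  refine (hB j j 0 (Nat.zero_le _)).1.mono fun v hv => ?_
  obtain ⟨α, β, h, -⟩ := hv
  exact ⟨α, h⟩

theorem quad_nonneg {v : HeightOneSpectrum (𝓞 K)}
    (h : ∀ j, ∃ α, IsCohomology (X j) (d j) (b j) v α) (c : ι → ℝ) (θ : ℝ) :
    0 ≤ ∑ j, ∑ k, c j * c k * ∑ i ∈ Finset.range (2 * d j + 2 * d k + 1),
      Real.cos (((i : ℝ) - d j - d k) * θ) * TT (X j) (d j) (b j) (X k) (d k) (b k) i v := by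
  have e1 : ∀ j k, c j * c k * ∑ i ∈ Finset.range (2 * d j + 2 * d k + 1),
      Real.cos (((i : ℝ) - d j - d k) * θ) * TT (X j) (d j) (b j) (X k) (d k) (b k) i v =
      (c j * ff (X j) (d j) (b j) θ v) * (c k * ff (X k) (d k) (b k) θ v) := by
    intro j k
    obtain ⟨α, hα⟩ := h j
    rw [cos_sum, gg_zero hα]
    ring
  rw [Finset.sum_congr rfl fun j _ => Finset.sum_congr rfl fun k _ => e1 j k,
    ← Finset.sum_mul_sum]
  exact mul_self_nonneg _

/-- **Positivity of the sizes.** -/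
theorem psd_size (hB : ∀ j k, ∀ i ≤ 2 * d j + 2 * d k,
      IsProductSystem (X j) (d j) (b j) (X k) (d k) (b k) i (B j k i))
    (c : ι → ℝ) (θ : ℝ) {η : ℝ} (hη : 0 < η) :
    ∀ᶠ ε : ℝ in 𝓝[>] 0, -η ≤ ∑ j, ∑ k, c j * c k *
      ∑ i ∈ Finset.range (2 * d j + 2 * d k + 1),
        Real.cos (((i : ℝ) - d j - d k) * θ) * size i (B j k i) ε := by
  classical
  set T : Finset (Σ _ : ι × ι, ℕ) := (Finset.univ : Finset (ι × ι)).sigma
    fun p => Finset.range (2 * d p.1 + 2 * d p.2 + 1) with hT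
  have key : ∀ F : ι → ι → ℕ → ℝ, ∑ x ∈ T, (c x.1.1 * c x.1.2 *
      Real.cos (((x.2 : ℝ) - d x.1.1 - d x.1.2) * θ)) * F x.1.1 x.1.2 x.2 =
      ∑ j, ∑ k, c j * c k * ∑ i ∈ Finset.range (2 * d j + 2 * d k + 1),
        Real.cos (((i : ℝ) - d j - d k) * θ) * F j k i := by
    intro F
    rw [hT, Finset.sum_sigma, Fintype.sum_prod_type]
    refine Finset.sum_congr rfl fun j _ => Finset.sum_congr rfl fun k _ => ?_
    rw [Finset.mul_sum]
    exact Finset.sum_congr rfl fun i _ => by ring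
  have h := comb_size (K := K) T (fun x => c x.1.1 * c x.1.2 *
      Real.cos (((x.2 : ℝ) - d x.1.1 - d x.1.2) * θ))
    (fun x v => TT (X x.1.1) (d x.1.1) (b x.1.1) (X x.1.2) (d x.1.2) (b x.1.2) x.2 v)
    (fun x => ∑ k ∈ degrees (d x.1.1) (d x.1.2) x.2, (b x.1.1 k.1 : ℝ) * b x.1.2 k.2)
    (fun x v => abs_TT _ _) (fun x ε => size x.2 (B x.1.1 x.1.2 x.2) ε)
    (fun x hx => by
      rw [hT, Finset.mem_sigma, Finset.mem_range] at hx
      exact (product_size x.2 (hB x.1.1 x.1.2 x.2 (by omega))).2) 0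
    ((eventually_cohomology hB).mono fun v hv => by
      rw [key fun j k i => TT (X j) (d j) (b j) (X k) (d k) (b k) i v]
      exact quad_nonneg hv c θ) hη
  refine h.mono fun ε hε => ?_
  rw [key fun j k i => size i (B j k i) ε] at hε
  linarith

/-- **Positivity of the orders of the poles.** -/
theorem psd_order (hB : ∀ j k, ∀ i ≤ 2 * d j + 2 * d k,
      IsProductSystem (X j) (d j) (b j) (X k) (d k) (b k) i (B j k i))
    {r : ι → ι → ℕ → ℤ} (hr : ∀ j k, ∀ i ≤ 2 * d j + 2 * d k, HasOrder i (B j k i) (-r j k i))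
    (c : ι → ℝ) (θ : ℝ) :
    0 ≤ ∑ j, ∑ k, c j * c k * ∑ i ∈ Finset.range (2 * d j + 2 * d k + 1),
      Real.cos (((i : ℝ) - d j - d k) * θ) * r j k i := by
  refine le_of_forall_pos_le_add fun η hη => ?_
  have h1 : Tendsto (fun ε : ℝ => ∑ j, ∑ k, c j * c k *
      ∑ i ∈ Finset.range (2 * d j + 2 * d k + 1),
        Real.cos (((i : ℝ) - d j - d k) * θ) * size i (B j k i) ε) (𝓝[>] 0)
      (𝓝 (∑ j, ∑ k, c j * c k * ∑ i ∈ Finset.range (2 * d j + 2 * d k + 1),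
      Real.cos (((i : ℝ) - d j - d k) * θ) * r j k i)) := by
    refine tendsto_finsetSum _ fun j _ => tendsto_finsetSum _ fun k _ => ?_
    refine Tendsto.const_mul _ (tendsto_finsetSum _ fun i hi => Tendsto.const_mul _ ?_)
    have hi' : i ≤ 2 * d j + 2 * d k := by
      have := Finset.mem_range.1 hi
      omega
    exact size_lim (product_size i (hB j k i hi')).1 (hr j k i hi')
  have h2 := ge_of_tendsto h1 (psd_size hB c θ hη)
  linarith

end

end Pool.Agent.J4.H34.ED
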