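import Pool.Agent.J4.H34.ED.EllDefs
import Pool.Agent.J4.H34.ED.Psd
import Pool.Agent.Y722.EP.Main

/-! Products with modular elliptic curves in all degrees. -/

set_option autoImplicit false

namespace Pool.Agent.J4.H34.ED

open Complex Filter Topology ComplexConjugate NumberField IsDedekindDomain Polynomial
open Pool.Agent.W540.BE Pool.Agent.W353.L1 Pool.Agent.W401.Cheb
open Pool.Agent.H341R2 (lam lam_tendsto)
open Pool.Agent.W353.PV (Eig alp tF pick_spec lim_ord)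
open Pool.Agent.W353.EF (IsFrobenius LFun size HasOrder IsEulerSystem)
open Pool.Agent.Y722.EP (rE rt rt_spec abs_rE rE_eq two_not_mem IsModular NotIsogenous sys_curves
  bessel_pos card_of_sum)

section
variable {K : Type} [Field K] [NumberField K] {n : ℕ}
  {X : Set (MvPolynomial (Fin n) (𝓞 K))} {d k b₀ b₁ b₂ : ℕ}

/-- the size of `L(H^i(Y), s)` -/
theorem base_size {i N : ℕ} (hi : i ≤ 2 * d) {B : HeightOneSpectrum (𝓞 K) → ℂ[X]}
    (hB : IsEulerSystem X d i N B) :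
    (∀ᶠ ε : ℝ in 𝓝[>] 0, LFun B ((i : ℂ) / 2 + 1 + ε) ≠ 0) ∧
    Tendsto (fun ε : ℝ => EP (nm K) ε (tF X d i N K) / lam ε - size i B ε)
      (𝓝[>] 0) (𝓝 0) := by
  have e0 : (((i : ℝ) / 2 : ℝ) : ℂ) = (i : ℂ) / 2 := by push_cast; rfl
  have h := size_fintype (κ := Fin N) ((i : ℝ) / 2) (fun v j => alp X d i N K v j) B
    (T := tF X d i N K) (fun v => abs_tr_le _ _ _)
    (by
      refine hB.1.mono fun v hv => ?_
      obtain ⟨γ, h1, h2⟩ := hv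
      have h3 : Eig X d i v (alp X d i N K v) := pick_spec ⟨γ, h1⟩
      refine ⟨fun j => h3.norm j, sum_eq hi h3, fun z => ?_⟩
      rw [h2 z]
      exact Pool.Agent.Y722.EP.prod_unique hi h1 fun y => (1 - y * z))
    (by
      rw [e0]
      exact hB.2)
  rw [e0] at h
  exact h

open Classical in
/-- chosen eigenvalues -/
noncomputable def ch3 (X : Set (MvPolynomial (Fin n) (𝓞 K))) (d k b₀ b₁ b₂ : ℕ) (a b' : ℤ)
    (B : HeightOneSpectrum (𝓞 K) → ℂ[X]) (v : HeightOneSpectrum (𝓞 K)) :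
    (Fin b₀ → ℂ) × (Fin b₁ → ℂ) × (Fin b₂ → ℂ) :=
  if h : ∃ p : (Fin b₀ → ℂ) × (Fin b₁ → ℂ) × (Fin b₂ → ℂ), IsFrobenius X d k v p.1 ∧
    IsFrobenius X d (k + 1) v p.2.1 ∧ IsFrobenius X d (k + 2) v p.2.2 ∧
    ∀ z : ℂ, (B v).eval z = (∏ j, (1 - p.2.2 j * z)) *
      (∏ j, (1 - (Ideal.absNorm v.asIdeal : ℂ) * p.1 j * z)) *
      ∏ j, (1 - (Pool.Agent.Y722.EP.trace v a b' : ℂ) * (p.2.1 j * z) +
        (Ideal.absNorm v.asIdeal : ℂ) * (p.2.1 j * z) ^ 2)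
  then h.choose else 0

/-- the eigenvalues on `H^{k+2}(Y × E)` -/
noncomputable def ev3 (a b' : ℤ) (v : HeightOneSpectrum (𝓞 K))
    (p : (Fin b₀ → ℂ) × (Fin b₁ → ℂ) × (Fin b₂ → ℂ)) :
    (Fin b₂ ⊕ Fin b₀) ⊕ (Fin b₁ ⊕ Fin b₁) → ℂ :=
  Sum.elim (Sum.elim (fun j => p.2.2 j) fun j => (Ideal.absNorm v.asIdeal : ℂ) * p.1 j)
    (Sum.elim (fun j => p.2.1 j * (rt a b' v).1) fun j => p.2.1 j * (rt a b' v).2)

/-- the normalised trace -/
noncomputable def T3 (X : Set (MvPolynomial (Fin n) (𝓞 K))) (d k b₀ b₁ b₂ : ℕ) (a b' : ℤ)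
    (v : HeightOneSpectrum (𝓞 K)) : ℝ :=
  (tF X d (k + 2) b₂ K v + tF X d k b₀ K v) + tF X d (k + 1) b₁ K v * rE a b' v

theorem abs_T3 (a b' : ℤ) (v : HeightOneSpectrum (𝓞 K)) :
    |T3 X d k b₀ b₁ b₂ a b' v| ≤ (b₂ + b₀) + b₁ * 2 := by
  unfold T3
  refine (abs_add_le _ _).trans (add_le_add ((abs_add_le _ _).trans
    (add_le_add (abs_tr_le _ _ _) (abs_tr_le _ _ _))) ?_)
  rw [abs_mul]
  exact mul_le_mul (abs_tr_le _ _ _) (abs_rE _ _ _) (abs_nonneg _) (Nat.cast_nonneg _)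

/-- **The size of `L(H^{k+2}(Y × E), s)`.** -/
theorem ell_size (hk : k + 2 ≤ 2 * d) (a b' : ℤ) {B : HeightOneSpectrum (𝓞 K) → ℂ[X]}
    (hB : IsEllipticProduct X d k b₀ b₁ b₂ a b' B) :
    (∀ᶠ ε : ℝ in 𝓝[>] 0, LFun B (((k + 2 : ℕ) : ℂ) / 2 + 1 + ε) ≠ 0) ∧
    Tendsto (fun ε : ℝ => EP (nm K) ε (T3 X d k b₀ b₁ b₂ a b') / lam ε - size (k + 2) B ε)
      (𝓝[>] 0) (𝓝 0) := by
  classical
  have e0 : ((((k + 2 : ℕ) : ℝ) / 2 : ℝ) : ℂ) = ((k + 2 : ℕ) : ℂ) / 2 := by push_cast; rfl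
  have h := size_fintype (κ := (Fin b₂ ⊕ Fin b₀) ⊕ (Fin b₁ ⊕ Fin b₁)) (((k + 2 : ℕ) : ℝ) / 2)
    (fun v => ev3 a b' v (ch3 X d k b₀ b₁ b₂ a b' B v)) B
    (T := T3 X d k b₀ b₁ b₂ a b') (fun v => abs_T3 a b' v)
    (by
      filter_upwards [hB.1, two_not_mem (K := K)] with v hv h2
      have hv' : ∃ p : (Fin b₀ → ℂ) × (Fin b₁ → ℂ) × (Fin b₂ → ℂ), IsFrobenius X d k v p.1 ∧
          IsFrobenius X d (k + 1) v p.2.1 ∧ IsFrobenius X d (k + 2) v p.2.2 ∧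
          ∀ z : ℂ, (B v).eval z = (∏ j, (1 - p.2.2 j * z)) *
            (∏ j, (1 - (Ideal.absNorm v.asIdeal : ℂ) * p.1 j * z)) *
            ∏ j, (1 - (Pool.Agent.Y722.EP.trace v a b' : ℂ) * (p.2.1 j * z) +
              (Ideal.absNorm v.asIdeal : ℂ) * (p.2.1 j * z) ^ 2) := by
        obtain ⟨γ, α, δ, h⟩ := hv
        exact ⟨(γ, α, δ), h⟩
      have hch : ch3 X d k b₀ b₁ b₂ a b' B v = hv'.choose := by
        unfold ch3
        rw [dif_pos hv']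
      rw [hch]
      obtain ⟨g0, g1, g2, g3⟩ := hv'.choose_spec
      set p := hv'.choose with hp
      obtain ⟨r1, r2, r3, r4⟩ := rt_spec h2 a b'
      have hq : (0 : ℝ) < nm K v := by exact_mod_cast nm_pos v
      have hs : Real.sqrt (nm K v) = (nm K v : ℝ) ^ ((1 : ℝ) / 2) := Real.sqrt_eq_rpow _
      have hw : (nm K v : ℝ) ^ (((k + 2 : ℕ) : ℝ) / 2) =
          (nm K v : ℝ) ^ (((k + 1 : ℕ) : ℝ) / 2) * Real.sqrt (nm K v) := by
        rw [hs, ← Real.rpow_add hq]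
        congr 1
        push_cast
        ring
      have hw0 : (nm K v : ℝ) ^ (((k + 2 : ℕ) : ℝ) / 2) =
          (nm K v : ℝ) * (nm K v : ℝ) ^ ((k : ℝ) / 2) := by
        have e : (nm K v : ℝ) * (nm K v : ℝ) ^ ((k : ℝ) / 2) =
            (nm K v : ℝ) ^ (1 : ℝ) * (nm K v : ℝ) ^ ((k : ℝ) / 2) := by rw [Real.rpow_one]
        rw [e, ← Real.rpow_add hq]
        congr 1
        push_cast
        ring
      have hn1 : ∀ j, ‖p.2.1 j‖ = (nm K v : ℝ) ^ (((k + 1 : ℕ) : ℝ) / 2) := norm_eig g1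
      refine ⟨fun x => ?_, ?_, fun z => ?_⟩
      · unfold ev3
        rcases x with (x | x) | (x | x)
        · exact norm_eig g2 x
        · change ‖(Ideal.absNorm v.asIdeal : ℂ) * p.1 x‖ = _
          rw [norm_mul, norm_eig g0 x, hw0, Complex.norm_natCast]
          rfl
        · change ‖p.2.1 x * (rt a b' v).1‖ = _
          rw [norm_mul, hn1 x, r1, hw]
        · change ‖p.2.1 x * (rt a b' v).2‖ = _
          rw [norm_mul, hn1 x, r2, hw]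
      · unfold ev3
        rw [Fintype.sum_sum_type, Fintype.sum_sum_type, Fintype.sum_sum_type]
        simp only [Sum.elim_inl, Sum.elim_inr]
        rw [← Finset.sum_mul, ← Finset.sum_mul, ← Finset.mul_sum, ← mul_add, r3,
          sum_eq (by omega) g0, sum_eq (by omega) g1, sum_eq (by omega) g2, nm_cast,
          ← Complex.ofReal_mul, ← Complex.ofReal_mul, ← Complex.ofReal_add,
          ← Complex.ofReal_add]
        congr 1
        unfold T3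
        rw [rE_eq h2]
        have e2 : tF X d (k + 1) b₁ K v * ((Pool.Agent.Y722.EP.trace v a b' : ℝ) /
            Real.sqrt (nm K v)) * (nm K v : ℝ) ^ (((k + 2 : ℕ) : ℝ) / 2) =
            tF X d (k + 1) b₁ K v * (nm K v : ℝ) ^ (((k + 1 : ℕ) : ℝ) / 2) *
              (Pool.Agent.Y722.EP.trace v a b' : ℝ) := by
          rw [hw]
          have h5 := (Pool.Agent.Y722.EP.sqrt_nm_pos v).ne'
          field_simp
        rw [add_mul, add_mul, e2]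
        have e3 : tF X d k b₀ K v * (nm K v : ℝ) ^ (((k + 2 : ℕ) : ℝ) / 2) =
            (nm K v : ℝ) * (tF X d k b₀ K v * (nm K v : ℝ) ^ ((k : ℝ) / 2)) := by
          rw [hw0]
          ring
        rw [e3]
      · rw [g3 z]
        unfold ev3
        rw [Fintype.prod_sum_type, Fintype.prod_sum_type, Fintype.prod_sum_type]
        simp only [Sum.elim_inl, Sum.elim_inr]
        rw [← Finset.prod_mul_distrib]
        have e3 : ∀ j, (1 - p.2.1 j * (rt a b' v).1 * z) * (1 - p.2.1 j * (rt a b' v).2 * z) =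
            1 - (Pool.Agent.Y722.EP.trace v a b' : ℂ) * (p.2.1 j * z) +
              (Ideal.absNorm v.asIdeal : ℂ) * (p.2.1 j * z) ^ 2 := by
          intro j
          have r3' : (rt a b' v).1 + (rt a b' v).2 =
              (Pool.Agent.Y722.EP.trace v a b' : ℂ) := by
            rw [r3]; push_cast; rfl
          have r4' : (rt a b' v).1 * (rt a b' v).2 = (Ideal.absNorm v.asIdeal : ℂ) := by
            rw [r4]; push_cast; rfl
          rw [← r3', ← r4']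
          ring
        rw [Finset.prod_congr rfl fun j _ => e3 j])
    (by
      rw [e0]
      exact hB.2)
  rw [e0] at h
  exact h

/-- the difference of the sizes -/
theorem ell_link (hk : k + 2 ≤ 2 * d) (a b' : ℤ) {B₀ B₂ B : HeightOneSpectrum (𝓞 K) → ℂ[X]}
    (h₀ : IsEulerSystem X d k b₀ B₀) (h₂ : IsEulerSystem X d (k + 2) b₂ B₂)
    (hB : IsEllipticProduct X d k b₀ b₁ b₂ a b' B) :
    Tendsto (fun ε : ℝ => (EP (nm K) ε fun v => tF X d (k + 1) b₁ K v * rE a b' v) / lam ε -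
      (size (k + 2) B ε - size (k + 2) B₂ ε - size k B₀ ε)) (𝓝[>] 0) (𝓝 0) := by
  have h1 := ((ell_size hk a b' hB).2.sub (base_size hk h₂).2).sub
    (base_size (by omega : k ≤ 2 * d) h₀).2
  rw [sub_zero, sub_zero] at h1
  refine h1.congr' ?_
  filter_upwards [self_mem_nhdsWithin] with ε hε
  have hε' : (0 : ℝ) < ε := hε
  have hb2 : ∀ v, |tF X d (k + 1) b₁ K v * rE a b' v| ≤ (b₁ : ℝ) * 2 := by
    intro v
    rw [abs_mul]
    exact mul_le_mul (abs_tr_le _ _ _) (abs_rE _ _ _) (abs_nonneg _) (Nat.cast_nonneg _)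
  have e1 : EP (nm K) ε (T3 X d k b₀ b₁ b₂ a b') = EP (nm K) ε (tF X d (k + 2) b₂ K) +
      EP (nm K) ε (tF X d k b₀ K) +
      EP (nm K) ε fun v => tF X d (k + 1) b₁ K v * rE a b' v := by
    have e2 : EP (nm K) ε (T3 X d k b₀ b₁ b₂ a b') = EP (nm K) ε fun v =>
      (tF X d (k + 2) b₂ K v + tF X d k b₀ K v) + tF X d (k + 1) b₁ K v * rE a b' v := rfl
    have g2 : ∀ v, |tF X d (k + 2) b₂ K v| ≤ (b₂ : ℝ) := fun v => abs_tr_le _ _ _
    have g0 : ∀ v, |tF X d k b₀ K v| ≤ (b₀ : ℝ) := fun v => abs_tr_le _ _ _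
    have g20 : ∀ v, |tF X d (k + 2) b₂ K v + tF X d k b₀ K v| ≤ (b₂ : ℝ) + b₀ := fun v =>
      (abs_add_le _ _).trans (add_le_add (g2 v) (g0 v))
    rw [e2, EP_add normSys hε' g20 hb2, EP_add normSys hε' g2 g0]
  rw [e1]
  ring

variable {ι : Type} {a b : ι → ℤ} {B₀ B₂ : HeightOneSpectrum (𝓞 K) → ℂ[X]}
  {B : ι → HeightOneSpectrum (𝓞 K) → ℂ[X]}

/-- the size of `L(H^{k+1}(Y) ⊗ H¹(E_i))` -/
noncomputable def xk (k : ℕ) (B₀ B₂ : HeightOneSpectrum (𝓞 K) → ℂ[X])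
    (B : ι → HeightOneSpectrum (𝓞 K) → ℂ[X]) (i : ι) (ε : ℝ) : ℝ :=
  size (k + 2) (B i) ε - size (k + 2) B₂ ε - size k B₀ ε

/-- **The sizes.** -/
theorem ell_main_size (hk : k + 2 ≤ 2 * d) (hΔ : ∀ i, 4 * a i ^ 3 + 27 * b i ^ 2 ≠ 0)
    (hmod : ∀ i, IsModular (a i) (b i))
    (hne : ∀ i j, i ≠ j → NotIsogenous (a i) (b i) (a j) (b j))
    (h₀ : IsEulerSystem X d k b₀ B₀) (h₂ : IsEulerSystem X d (k + 2) b₂ B₂)
    (hB : ∀ i, IsEllipticProduct X d k b₀ b₁ b₂ (a i) (b i) (B i))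
    (J : Finset ι) {η : ℝ} (hη : 0 < η) :
    (∀ᶠ ε : ℝ in 𝓝[>] 0, ∑ i ∈ J, (max (xk k B₀ B₂ B i ε) 0) ^ 2 ≤
      (b₁ : ℝ) ^ 2 * Module.finrank ℚ K + η) ∧
    (∀ᶠ ε : ℝ in 𝓝[>] 0, ∑ i ∈ J, (max (-xk k B₀ B₂ B i ε) 0) ^ 2 ≤
      (b₁ : ℝ) ^ 2 * Module.finrank ℚ K + η) := by
  obtain ⟨t, ht, hR⟩ := sys_curves J a b (fun i _ => hmod i) (fun i _ j _ => hne i j)
    (fun i _ => hΔ i) K
  have hT : ∀ v, |tF X d (k + 1) b₁ K v| ≤ (b₁ : ℝ) := fun v => abs_tr_le _ _ _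
  refine ⟨bessel_pos ht hR (Nat.cast_nonneg _) hT (x := xk k B₀ B₂ B)
    (fun i _ => ell_link hk (a i) (b i) h₀ h₂ (hB i)) hη, ?_⟩
  refine bessel_pos ht hR (Nat.cast_nonneg _) (T := fun v => -tF X d (k + 1) b₁ K v)
    (fun v => by rw [abs_neg]; exact hT v) (x := fun i ε => -xk k B₀ B₂ B i ε) (fun i _ => ?_) hη
  have h := (ell_link hk (a i) (b i) h₀ h₂ (hB i)).neg
  rw [neg_zero] at h
  refine h.congr fun ε => ?_
  have e : (EP (nm K) ε fun v => -tF X d (k + 1) b₁ K v * rE (a i) (b i) v) =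
      -(EP (nm K) ε fun v => tF X d (k + 1) b₁ K v * rE (a i) (b i) v) := by
    rw [← neg_one_mul (EP (nm K) ε fun v => tF X d (k + 1) b₁ K v * rE (a i) (b i) v),
      ← EP_const_mul]
    congr 1
    funext v
    ring
  rw [e]
  unfold xk
  ring

/-- the limit of the sizes -/
theorem xk_lim (hk : k + 2 ≤ 2 * d) (h₀ : IsEulerSystem X d k b₀ B₀)
    (h₂ : IsEulerSystem X d (k + 2) b₂ B₂) {i : ι}
    (hB : IsEllipticProduct X d k b₀ b₁ b₂ (a i) (b i) (B i)) {r₀ r₂ r : ℤ}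
    (hr₀ : HasOrder k B₀ (-r₀)) (hr₂ : HasOrder (k + 2) B₂ (-r₂))
    (hr : HasOrder (k + 2) (B i) (-r)) :
    Tendsto (xk k B₀ B₂ B i) (𝓝[>] 0) (𝓝 ((r : ℝ) - r₂ - r₀)) :=
  ((size_lim (ell_size hk (a i) (b i) hB).1 hr).sub (size_lim (base_size hk h₂).1 hr₂)).sub
    (size_lim (base_size (by omega : k ≤ 2 * d) h₀).1 hr₀)

/-- **The orders of the poles**, for a finite family. -/
theorem ell_main_order (hk : k + 2 ≤ 2 * d) (hΔ : ∀ i, 4 * a i ^ 3 + 27 * b i ^ 2 ≠ 0)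
    (hmod : ∀ i, IsModular (a i) (b i))
    (hne : ∀ i j, i ≠ j → NotIsogenous (a i) (b i) (a j) (b j))
    (h₀ : IsEulerSystem X d k b₀ B₀) (h₂ : IsEulerSystem X d (k + 2) b₂ B₂)
    (hB : ∀ i, IsEllipticProduct X d k b₀ b₁ b₂ (a i) (b i) (B i))
    {r₀ r₂ : ℤ} {r : ι → ℤ} (hr₀ : HasOrder k B₀ (-r₀)) (hr₂ : HasOrder (k + 2) B₂ (-r₂))
    (hr : ∀ i, HasOrder (k + 2) (B i) (-r i)) (J : Finset ι) :
    ∑ i ∈ J, (max (r i - r₂ - r₀) 0) ^ 2 ≤ (b₁ : ℤ) ^ 2 * Module.finrank ℚ K ∧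
    ∑ i ∈ J, (max (r₂ + r₀ - r i) 0) ^ 2 ≤ (b₁ : ℤ) ^ 2 * Module.finrank ℚ K := by
  have hcont1 : Continuous fun x : ℝ => (max x 0) ^ 2 := by fun_prop
  have hcont2 : Continuous fun x : ℝ => (max (-x) 0) ^ 2 := by fun_prop
  have hl := fun i => xk_lim (B := B) hk h₀ h₂ (hB i) hr₀ hr₂ (hr i)
  have h1 : Tendsto (fun ε => ∑ i ∈ J, (max (xk k B₀ B₂ B i ε) 0) ^ 2) (𝓝[>] 0)
      (𝓝 (∑ i ∈ J, (max ((r i : ℝ) - r₂ - r₀) 0) ^ 2)) :=
    tendsto_finsetSum J fun i _ => (hcont1.tendsto _).comp (hl i)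
  have h2 : Tendsto (fun ε => ∑ i ∈ J, (max (-xk k B₀ B₂ B i ε) 0) ^ 2) (𝓝[>] 0)
      (𝓝 (∑ i ∈ J, (max (-((r i : ℝ) - r₂ - r₀)) 0) ^ 2)) :=
    tendsto_finsetSum J fun i _ => (hcont2.tendsto _).comp (hl i)
  have k1 : ∑ i ∈ J, (max ((r i : ℝ) - r₂ - r₀) 0) ^ 2 ≤ (b₁ : ℝ) ^ 2 * Module.finrank ℚ K :=
    le_of_forall_pos_le_add fun η hη =>
      le_of_tendsto h1 (ell_main_size hk hΔ hmod hne h₀ h₂ hB J hη).1
  have k2 : ∑ i ∈ J, (max (-((r i : ℝ) - r₂ - r₀)) 0) ^ 2 ≤ (b₁ : ℝ) ^ 2 * Module.finrank ℚ K :=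
    le_of_forall_pos_le_add fun η hη =>
      le_of_tendsto h2 (ell_main_size hk hΔ hmod hne h₀ h₂ hB J hη).2
  constructor
  · have e : ((∑ i ∈ J, (max (r i - r₂ - r₀) 0) ^ 2 : ℤ) : ℝ) =
        ∑ i ∈ J, (max ((r i : ℝ) - r₂ - r₀) 0) ^ 2 := by
      push_cast
      rfl
    rw [← e] at k1
    exact_mod_cast k1
  · have e : ((∑ i ∈ J, (max (r₂ + r₀ - r i) 0) ^ 2 : ℤ) : ℝ) =
        ∑ i ∈ J, (max (-((r i : ℝ) - r₂ - r₀)) 0) ^ 2 := by
      push_cast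
      refine Finset.sum_congr rfl fun i _ => ?_
      congr 2
      ring
    rw [← e] at k2
    exact_mod_cast k2

/-- **The exceptional isogeny classes** in one degree. -/
theorem ell_main_card (hk : k + 2 ≤ 2 * d) (hΔ : ∀ i, 4 * a i ^ 3 + 27 * b i ^ 2 ≠ 0)
    (hmod : ∀ i, IsModular (a i) (b i))
    (hne : ∀ i j, i ≠ j → NotIsogenous (a i) (b i) (a j) (b j))
    (h₀ : IsEulerSystem X d k b₀ B₀) (h₂ : IsEulerSystem X d (k + 2) b₂ B₂)
    (hB : ∀ i, IsEllipticProduct X d k b₀ b₁ b₂ (a i) (b i) (B i))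
    {r₀ r₂ : ℤ} {r : ι → ℤ} (hr₀ : HasOrder k B₀ (-r₀)) (hr₂ : HasOrder (k + 2) B₂ (-r₂))
    (hr : ∀ i, HasOrder (k + 2) (B i) (-r i)) :
    {i | r i ≠ r₀ + r₂}.Finite ∧ {i | r₀ + r₂ < r i}.ncard ≤ b₁ ^ 2 * Module.finrank ℚ K ∧
      {i | r i < r₀ + r₂}.Finite ∧ {i | r i < r₀ + r₂}.ncard ≤ b₁ ^ 2 * Module.finrank ℚ K := by
  have h := ell_main_order hk hΔ hmod hne h₀ h₂ hB hr₀ hr₂ hr
  obtain ⟨f1, c1⟩ := card_of_sum (f := fun i => r i - r₂ - r₀) (M := b₁ ^ 2 * Module.finrank ℚ K)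
    fun J => by push_cast; exact (h J).1
  obtain ⟨f2, c2⟩ := card_of_sum (f := fun i => r₂ + r₀ - r i) (M := b₁ ^ 2 * Module.finrank ℚ K)
    fun J => by push_cast; exact (h J).2
  have s1 : {i | 0 < r i - r₂ - r₀} = {i | r₀ + r₂ < r i} := by
    ext i; simp only [Set.mem_ofPred_eq]; omega
  have s2 : {i | 0 < r₂ + r₀ - r i} = {i | r i < r₀ + r₂} := by
    ext i; simp only [Set.mem_ofPred_eq]; omega
  rw [s1] at f1 c1
  rw [s2] at f2 c2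
  refine ⟨(f1.union f2).subset ?_, c1, f2, c2⟩
  intro i hi
  rcases lt_or_gt_of_ne hi with h1 | h1
  · exact Or.inr h1
  · exact Or.inl h1

end

/-- **All degrees together.** -/
theorem ell_all {K : Type} [Field K] [NumberField K] {n : ℕ}
    {X : Set (MvPolynomial (Fin n) (𝓞 K))} {d : ℕ} {b : ℕ → ℕ} {ι : Type} {a a' : ι → ℤ}
    (hΔ : ∀ i, 4 * a i ^ 3 + 27 * a' i ^ 2 ≠ 0)
    (hmod : ∀ i, IsModular (a i) (a' i))
    (hne : ∀ i j, i ≠ j → NotIsogenous (a i) (a' i) (a j) (a' j))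
    {C : ℕ → HeightOneSpectrum (𝓞 K) → ℂ[X]} {ρ : ℕ → ℤ}
    (hC : ∀ k ≤ 2 * d, IsEulerSystem X d k (b k) (C k) ∧ HasOrder k (C k) (-ρ k) ∧ 0 ≤ ρ k)
    {B : ι → ℕ → HeightOneSpectrum (𝓞 K) → ℂ[X]} {r : ι → ℕ → ℤ}
    (hB : ∀ i, ∀ k, k + 2 ≤ 2 * d → IsEllipticProduct X d k (b k) (b (k + 1)) (b (k + 2))
      (a i) (a' i) (B i (k + 2)) ∧ HasOrder (k + 2) (B i (k + 2)) (-r i (k + 2))) :
    {i | ∃ k, k + 2 ≤ 2 * d ∧ r i (k + 2) < 0}.Finite ∧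
    {i | ∃ k, k + 2 ≤ 2 * d ∧ r i (k + 2) < 0}.ncard ≤
      Module.finrank ℚ K * ∑ k ∈ Finset.Ioo 0 (2 * d), b k ^ 2 := by
  classical
  set S : ℕ → Set ι := fun k => {i | r i (k + 2) < ρ k + ρ (k + 2)} with hS
  have hcard : ∀ k, k + 2 ≤ 2 * d → (S k).Finite ∧
      (S k).ncard ≤ b (k + 1) ^ 2 * Module.finrank ℚ K := by
    intro k hk
    have h := ell_main_card hk hΔ hmod hne (hC k (by omega)).1 (hC (k + 2) hk).1
      (fun i => (hB i k hk).1) (hC k (by omega)).2.1 (hC (k + 2) hk).2.1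
      (fun i => (hB i k hk).2)
    exact ⟨h.2.2.1, h.2.2.2⟩
  have hsub : {i | ∃ k, k + 2 ≤ 2 * d ∧ r i (k + 2) < 0} ⊆
      ⋃ k ∈ Finset.range (2 * d - 1), S k := by
    rintro i ⟨k, hk, hi⟩
    rw [Set.mem_iUnion₂]
    refine ⟨k, Finset.mem_range.2 (by omega), ?_⟩
    rw [hS]
    have h1 := (hC k (by omega)).2.2
    have h2 := (hC (k + 2) hk).2.2
    simp only [Set.mem_ofPred_eq]
    omega
  have hfin : (⋃ k ∈ Finset.range (2 * d - 1), S k).Finite :=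
    Set.Finite.biUnion (Finset.finite_toSet _) fun k hk => by
      have := Finset.mem_range.1 hk
      exact (hcard k (by omega)).1
  refine ⟨hfin.subset hsub, (Set.ncard_le_ncard hsub hfin).trans ?_⟩
  refine (Finset.set_ncard_biUnion_le _ _).trans ?_
  have e : ∑ k ∈ Finset.Ioo 0 (2 * d), b k ^ 2 =
      ∑ k ∈ Finset.range (2 * d - 1), b (k + 1) ^ 2 := by
    refine Finset.sum_nbij' (fun k => k - 1) (fun k => k + 1) ?_ ?_ ?_ ?_ ?_
    · intro k hk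
      rw [Finset.mem_Ioo] at hk
      rw [Finset.mem_range]
      omega
    · intro k hk
      rw [Finset.mem_range] at hk
      rw [Finset.mem_Ioo]
      omega
    · intro k hk
      rw [Finset.mem_Ioo] at hk
      omega
    · intro k _
      omega
    · intro k hk
      rw [Finset.mem_Ioo] at hk
      have : k - 1 + 1 = k := by omega
      rw [this]
  rw [e, Finset.mul_sum]
  refine Finset.sum_le_sum fun k hk => ?_
  have := Finset.mem_range.1 hk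
  rw [mul_comm]
  exact (hcard k (by omega)).2

end Pool.Agent.J4.H34.ED
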