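import Pool.Agent.Y722.EP.Defs

/-!
# Products with modular elliptic curves, in all degrees: definitions

`Y` is a projective variety over a number field `K` and `E : y² = x³ + a x + b` an elliptic curve over
`ℚ`, `a, b ∈ ℤ`.  By the theorem of Künneth `H^{k+2}(Y × E)` is the sum of `H^{k+2}(Y)`,
`H^{k+1}(Y) ⊗ H¹(E)` and `H^k(Y) ⊗ H²(E) = H^k(Y)(-1)`.
-/

set_option autoImplicit false

namespace Pool.Agent.J4.H34.ED

open NumberField IsDedekindDomain Filter Topology Polynomial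

section
variable {K : Type} [Field K] [NumberField K] {n : ℕ}

/-- The polynomials `B v` are the Euler factors of `L(H^{k+2}(Y × E), s)`, where `Y` is the variety
over `K` of dimension `d` given by the equations `X`, with Betti numbers `b₀`, `b₁`, `b₂` in the degrees
`k`, `k + 1`, `k + 2`, and `E` is the elliptic curve `y² = x³ + a x + b'`.  For almost all `v`, if
`γ_j`, `α_j`, `δ_j` are the eigenvalues of Frobenius at `v` on `H^k(Y)`, `H^{k+1}(Y)`, `H^{k+2}(Y)`, and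
`β, β'` those on `H¹(E)`, `β + β' = trace v a b'`, `β β' = q_v`, then
`B_v(z) = ∏ (1 - δ_j z) ∏ (1 - q_v γ_j z) ∏ (1 - α_j β z) (1 - α_j β' z)`.
At the other primes `B v` is an arbitrary polynomial, and no factor `1 / B_v(q_v^{-s})` has a pole
at `s = (k + 2)/2 + 1`. -/
def IsEllipticProduct (X : Set (MvPolynomial (Fin n) (𝓞 K))) (d k b₀ b₁ b₂ : ℕ) (a b' : ℤ)
    (B : HeightOneSpectrum (𝓞 K) → ℂ[X]) : Prop :=
  (∀ᶠ v in cofinite, ∃ (γ : Fin b₀ → ℂ) (α : Fin b₁ → ℂ) (δ : Fin b₂ → ℂ),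
    Pool.Agent.W353.EF.IsFrobenius X d k v γ ∧ Pool.Agent.W353.EF.IsFrobenius X d (k + 1) v α ∧
    Pool.Agent.W353.EF.IsFrobenius X d (k + 2) v δ ∧
    ∀ z : ℂ, (B v).eval z = (∏ j, (1 - δ j * z)) *
      (∏ j, (1 - (Ideal.absNorm v.asIdeal : ℂ) * γ j * z)) *
      ∏ j, (1 - (Pool.Agent.Y722.EP.trace v a b' : ℂ) * (α j * z) +
        (Ideal.absNorm v.asIdeal : ℂ) * (α j * z) ^ 2)) ∧
  ∀ v, (B v).eval ((Ideal.absNorm v.asIdeal : ℂ) ^ (-(((k + 2 : ℕ) : ℂ) / 2 + 1))) ≠ 0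

end

end Pool.Agent.J4.H34.ED
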