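import Pool.Agent.J4.H34.ED.MultiDefs
import Pool.Agent.J4.H34.ED.Psd

/-! The sizes of the `L`-functions of a product of several varieties. -/

set_option autoImplicit false

namespace Pool.Agent.J4.H34.ED

open Complex Filter Topology ComplexConjugate NumberField IsDedekindDomain Polynomial
open Pool.Agent.W540.BE Pool.Agent.W353.L1 Pool.Agent.W401.Cheb
open Pool.Agent.H341R2 (lam lam_tendsto)
open Pool.Agent.W353.PV (Eig alp tF pick_spec)
open Pool.Agent.W353.EF (IsFrobenius LFun size HasOrder)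

section
variable {K : Type} [Field K] [NumberField K] {ι : Type} [Fintype ι] (Y : ι → Variety K)

/-- the normalised trace on `H^k(Y)` -/
noncomputable def Variety.t (Y : Variety K) (k : ℕ) (v : HeightOneSpectrum (𝓞 K)) : ℝ :=
  tF Y.X Y.d k (Y.b k) K v

theorem Variety.abs_t (Y : Variety K) (k : ℕ) (v : HeightOneSpectrum (𝓞 K)) :
    |Y.t k v| ≤ (Y.b k : ℝ) := abs_tr_le _ _ _

/-- the normalised trace on `H^i(∏ Y_j)` -/
noncomputable def MT (i : ℕ) (v : HeightOneSpectrum (𝓞 K)) : ℝ :=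
  ∑ k ∈ multidegrees Y i, ∏ j, (Y j).t (k j) v

theorem abs_MT (i : ℕ) (v : HeightOneSpectrum (𝓞 K)) : |MT Y i v| ≤
    ∑ k ∈ multidegrees Y i, ∏ j, ((Y j).b (k j) : ℝ) := by
  unfold MT
  refine (Finset.abs_sum_le_sum_abs _ _).trans (Finset.sum_le_sum fun k _ => ?_)
  rw [Finset.abs_prod]
  exact Finset.prod_le_prod (fun _ _ => abs_nonneg _) fun j _ => (Y j).abs_t _ _

variable {Y}

theorem mem_multidegrees {i : ℕ} {k : ι → ℕ} (h : k ∈ multidegrees Y i) :
    (∀ j, k j ≤ 2 * (Y j).d) ∧ ∑ j, k j = i := by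
  classical
  unfold multidegrees at h
  rw [Finset.mem_filter, Fintype.mem_piFinset] at h
  refine ⟨fun j => ?_, h.2⟩
  have := Finset.mem_range.1 (h.1 j)
  omega

variable (Y)

/-- the index set of the eigenvalues on `H^i(∏ Y_j)` -/
abbrev MInd (i : ℕ) : Type := Σ k : multidegrees Y i, (j : ι) → Fin ((Y j).b (k.1 j))

open Classical in
/-- chosen eigenvalues -/
noncomputable def mch (i : ℕ) (B : HeightOneSpectrum (𝓞 K) → ℂ[X]) (v : HeightOneSpectrum (𝓞 K)) :
    (j : ι) → (k : ℕ) → Fin ((Y j).b k) → ℂ :=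
  if h : ∃ α : (j : ι) → (k : ℕ) → Fin ((Y j).b k) → ℂ, (∀ j, (Y j).IsFrob v (α j)) ∧
    ∀ z : ℂ, (B v).eval z = ∏ k ∈ multidegrees Y i, ∏ x : (j : ι) → Fin ((Y j).b (k j)),
      (1 - (∏ j, α j (k j) (x j)) * z)
  then h.choose else 0

/-- **The size of the `L`-function of `H^i(∏ Y_j)`.** -/
theorem multi_size (i : ℕ) {B : HeightOneSpectrum (𝓞 K) → ℂ[X]} (hB : IsMultiSystem Y i B) :
    (∀ᶠ ε : ℝ in 𝓝[>] 0, LFun B ((i : ℂ) / 2 + 1 + ε) ≠ 0) ∧
    Tendsto (fun ε : ℝ => EP (nm K) ε (MT Y i) / lam ε - size i B ε)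
      (𝓝[>] 0) (𝓝 0) := by
  classical
  have e0 : (((i : ℝ) / 2 : ℝ) : ℂ) = (i : ℂ) / 2 := by push_cast; rfl
  have hpos : ∀ v : HeightOneSpectrum (𝓞 K), (0 : ℝ) < nm K v := fun v => by
    exact_mod_cast nm_pos v
  have hmul : ∀ (v : HeightOneSpectrum (𝓞 K)) (k : ι → ℕ), ∑ j, k j = i →
      ∏ j, (nm K v : ℝ) ^ ((k j : ℝ) / 2) = (nm K v : ℝ) ^ ((i : ℝ) / 2) := by
    intro v k hk
    rw [← Real.rpow_sum_of_pos (hpos v)]
    congr 1
    rw [← Finset.sum_div, ← Nat.cast_sum, hk]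
  have h := size_fintype (κ := MInd Y i) ((i : ℝ) / 2)
    (fun v x => ∏ j, mch Y i B v j (x.1.1 j) (x.2 j)) B (T := MT Y i) (fun v => abs_MT Y i v)
    (by
      refine hB.1.mono fun v hv => ?_
      have hch : mch Y i B v = hv.choose := by
        unfold mch
        rw [dif_pos hv]
      obtain ⟨h1, h3⟩ := hv.choose_spec
      rw [← hch] at h1 h3
      refine ⟨fun x => ?_, ?_, fun z => ?_⟩
      · obtain ⟨g1, g2⟩ := mem_multidegrees x.1.2
        rw [norm_prod, Finset.prod_congr rfl fun j _ => norm_eig (h1 j _ (g1 j)) (x.2 j),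
          hmul v _ g2]
      · rw [Fintype.sum_sigma]
        have e1 : ∀ k : multidegrees Y i, ∑ y : (j : ι) → Fin ((Y j).b (k.1 j)),
            ∏ j, mch Y i B v j (k.1 j) (y j) =
            (((∏ j, (Y j).t (k.1 j) v) * (nm K v : ℝ) ^ ((i : ℝ) / 2) : ℝ) : ℂ) := by
          intro k
          obtain ⟨g1, g2⟩ := mem_multidegrees k.2
          rw [← Fintype.piFinset_univ, ← Finset.prod_univ_sum]
          rw [Finset.prod_congr rfl fun j _ => sum_eq (g1 j) (h1 j _ (g1 j)), ← Complex.ofReal_prod,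
            Finset.prod_mul_distrib, hmul v _ g2]
          rfl
        rw [Finset.sum_congr rfl fun k _ => e1 k, ← Complex.ofReal_sum, ← Finset.sum_mul]
        unfold MT
        rw [Finset.sum_coe_sort (multidegrees Y i) fun k => ∏ j, (Y j).t (k j) v]
      · rw [h3 z, Fintype.prod_sigma, ← Finset.prod_coe_sort (multidegrees Y i)])
    (by
      rw [e0]
      exact hB.2)
  rw [e0] at h
  exact h

variable {Y}

/-- **A lower bound for the size**, from a lower bound for the traces at almost all primes. -/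
theorem multi_lower {i : ℕ} {B : HeightOneSpectrum (𝓞 K) → ℂ[X]} (hB : IsMultiSystem Y i B)
    {A : ℝ} (hA : ∀ᶠ v in cofinite, A ≤ MT Y i v) :
    (∀ η : ℝ, 0 < η → ∀ᶠ ε : ℝ in 𝓝[>] 0, A - η ≤ size i B ε) ∧
    ∀ m : ℤ, HasOrder i B m → (m : ℝ) ≤ -A := by
  have h1 := multi_size Y i hB
  have h2 : ∀ η : ℝ, 0 < η → ∀ᶠ ε : ℝ in 𝓝[>] 0, A - η ≤ size i B ε := by
    intro η hη
    have h3 := comb_size (κ := Unit) Finset.univ (fun _ => (1 : ℝ)) (fun _ => MT Y i)
      (fun _ => ∑ k ∈ multidegrees Y i, ∏ j, ((Y j).b (k j) : ℝ)) (fun _ v => abs_MT Y i v)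
      (fun _ => size i B) (fun _ _ => h1.2) A (hA.mono fun v hv => by simpa using hv) hη
    refine h3.mono fun ε hε => ?_
    simpa using hε
  refine ⟨h2, fun m hm => ?_⟩
  have hm' : HasOrder i B (-(-m)) := by rwa [neg_neg]
  have h4 := size_lim h1.1 hm'
  have h5 : A ≤ ((-m : ℤ) : ℝ) := le_of_forall_pos_le_add fun η hη => by
    have := ge_of_tendsto h4 (h2 η hη)
    linarith
  push_cast at h5
  linarith

end

end Pool.Agent.J4.H34.ED
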