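import Pool.Agent.J4.H34.ED.KummerDefs
import Pool.Agent.J4.H34.ED.Multi
import Pool.Agent.J4.H34.ED.Ell
import Pool.Agent.W353.NF.Burn

/-! Kummer varieties: the lower bounds for the traces, and the orders at the edge. -/

set_option autoImplicit false

namespace Pool.Agent.J4.H34.ED

open Complex Filter Topology ComplexConjugate NumberField IsDedekindDomain Polynomial
open Pool.Agent.W540.BE Pool.Agent.W353.L1 Pool.Agent.W401.Cheb
open Pool.Agent.W353.NF (real_mean kap cz avR_ker)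
open Pool.Agent.H341R2 (lam lam_tendsto)
open Pool.Agent.W353.PV (Eig alp tF pick_spec)
open Pool.Agent.W353.EF (IsFrobenius IsEulerSystem LFun size HasOrder)
open Pool.Agent.W353.TD (IsFrobeniusElement)

/-! ### Symmetric functions -/

theorem esymm_congr {m : ℕ} {γ γ' : Fin m → ℂ}
    (h : Finset.univ.val.map γ = Finset.univ.val.map γ') (k : ℕ) :
    ∑ I ∈ (Finset.univ : Finset (Fin m)).powersetCard k, ∏ i ∈ I, γ i =
      ∑ I ∈ (Finset.univ : Finset (Fin m)).powersetCard k, ∏ i ∈ I, γ' i := by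
  have h1 := Finset.esymm_map_val γ (Finset.univ : Finset (Fin m)) k
  have h2 := Finset.esymm_map_val γ' (Finset.univ : Finset (Fin m)) k
  rw [h] at h1
  exact h1.symm.trans h2

theorem e2_four (a b c d q : ℂ) (h1 : a * c = q) (h2 : b * d = q) :
    ∑ I ∈ (Finset.univ : Finset (Fin 4)).powersetCard 2, ∏ i ∈ I, (![a, b, c, d] : Fin 4 → ℂ) i =
      2 * q + (a + c) * (b + d) := by
  have e : (Finset.univ : Finset (Fin 4)).powersetCard 2 =
      {{0,1},{0,2},{0,3},{1,2},{1,3},{2,3}} := by decide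
  rw [e]
  repeat rw [Finset.sum_insert (by decide)]
  rw [Finset.sum_singleton]
  repeat rw [Finset.prod_insert (by decide)]
  simp only [Finset.prod_singleton, Matrix.cons_val]
  linear_combination h1 + h2

theorem e2_six (a b c a' b' c' q : ℂ) (h1 : a * a' = q) (h2 : b * b' = q) (h3 : c * c' = q) :
    ∑ I ∈ (Finset.univ : Finset (Fin 6)).powersetCard 2,
      ∏ i ∈ I, (![a, b, c, a', b', c'] : Fin 6 → ℂ) i =
      3 * q + ((a + a') * (b + b') + (a + a') * (c + c') + (b + b') * (c + c')) := by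
  have e : (Finset.univ : Finset (Fin 6)).powersetCard 2 =
      {{0,1},{0,2},{0,3},{0,4},{0,5},{1,2},{1,3},{1,4},{1,5},{2,3},{2,4},{2,5},{3,4},{3,5},{4,5}} := by
    decide
  rw [e]
  repeat rw [Finset.sum_insert (by decide)]
  rw [Finset.sum_singleton]
  repeat rw [Finset.prod_insert (by decide)]
  simp only [Finset.prod_singleton, Matrix.cons_val]
  linear_combination h1 + h2 + h3

theorem e4_six (a b c a' b' c' q : ℂ) (h1 : a * a' = q) (h2 : b * b' = q) (h3 : c * c' = q) :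
    ∑ I ∈ (Finset.univ : Finset (Fin 6)).powersetCard 4,
      ∏ i ∈ I, (![a, b, c, a', b', c'] : Fin 6 → ℂ) i =
      q * (3 * q + ((a + a') * (b + b') + (a + a') * (c + c') + (b + b') * (c + c'))) := by
  have e : (Finset.univ : Finset (Fin 6)).powersetCard 4 =
      {{0,1,2,3},{0,1,2,4},{0,1,2,5},{0,1,3,4},{0,1,3,5},{0,1,4,5},{0,2,3,4},{0,2,3,5},{0,2,4,5},
        {0,3,4,5},{1,2,3,4},{1,2,3,5},{1,2,4,5},{1,3,4,5},{2,3,4,5}} := by
    decide
  rw [e]
  repeat rw [Finset.sum_insert (by decide)]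
  rw [Finset.sum_singleton]
  repeat rw [Finset.prod_insert (by decide)]
  simp only [Finset.prod_singleton, Matrix.cons_val]
  have e1 : a * (b * (c * a')) + (a * (b * (c * b')) + (a * (b * (c * c')) +
      (a * (b * (a' * b')) + (a * (b * (a' * c')) + (a * (b * (b' * c')) +
      (a * (c * (a' * b')) + (a * (c * (a' * c')) + (a * (c * (b' * c')) +
      (a * (a' * (b' * c')) + (b * (c * (a' * b')) + (b * (c * (a' * c')) +
      (b * (c * (b' * c')) + (b * (a' * (b' * c')) + c * (a' * (b' * c'))))))))))))))) =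
      (a * a') * (b * b') + (a * a') * (c * c') + (b * b') * (c * c') +
      (a * a') * ((b + b') * (c + c')) + (b * b') * ((a + a') * (c + c')) +
      (c * c') * ((a + a') * (b + b')) := by ring
  rw [e1, h1, h2, h3]
  ring

theorem two_bound {x y : ℝ} (hx : |x| ≤ 2) (hy : |y| ≤ 2) : -2 ≤ 2 + x * y := by
  rw [abs_le] at hx hy
  nlinarith [mul_nonneg (by linarith : (0 : ℝ) ≤ 2 - x) (by linarith : (0 : ℝ) ≤ 2 + y),
    mul_nonneg (by linarith : (0 : ℝ) ≤ 2 + x) (by linarith : (0 : ℝ) ≤ 2 - y)]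

theorem three_bound {x y z : ℝ} (hx : |x| ≤ 2) (hy : |y| ≤ 2) (hz : |z| ≤ 2) :
    -1 ≤ 3 + (x * y + x * z + y * z) := by
  rw [abs_le] at hx hy hz
  have a1 : 0 ≤ (2 - x) * ((2 - y) * (2 + z)) :=
    mul_nonneg (by linarith) (mul_nonneg (by linarith) (by linarith))
  have a2 : 0 ≤ (2 - x) * ((2 + y) * (2 - z)) :=
    mul_nonneg (by linarith) (mul_nonneg (by linarith) (by linarith))
  have a3 : 0 ≤ (2 + x) * ((2 - y) * (2 - z)) :=
    mul_nonneg (by linarith) (mul_nonneg (by linarith) (by linarith))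
  have a4 : 0 ≤ (2 + x) * ((2 + y) * (2 - z)) :=
    mul_nonneg (by linarith) (mul_nonneg (by linarith) (by linarith))
  have a5 : 0 ≤ (2 + x) * ((2 - y) * (2 + z)) :=
    mul_nonneg (by linarith) (mul_nonneg (by linarith) (by linarith))
  have a6 : 0 ≤ (2 - x) * ((2 + y) * (2 + z)) :=
    mul_nonneg (by linarith) (mul_nonneg (by linarith) (by linarith))
  have a7 : 0 ≤ (2 + x) * ((2 + y) * (2 + z)) :=
    mul_nonneg (by linarith) (mul_nonneg (by linarith) (by linarith))
  have a8 : 0 ≤ (2 - x) * ((2 - y) * (2 - z)) :=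
    mul_nonneg (by linarith) (mul_nonneg (by linarith) (by linarith))
  nlinarith [a1, a2, a3, a4, a5, a6, a7, a8]

/-- a pair of eigenvalues -/
theorem pair_sum {q : ℝ} (hq : 0 < q) {z : ℂ} (hz : ‖z‖ = q ^ ((1 : ℝ) / 2)) :
    z * ((q : ℂ) / z) = q ∧ ∃ x : ℝ, |x| ≤ 2 ∧ z + (q : ℂ) / z = ((x * Real.sqrt q : ℝ) : ℂ) := by
  have hs : Real.sqrt q = q ^ ((1 : ℝ) / 2) := Real.sqrt_eq_rpow _
  have hs0 : 0 < Real.sqrt q := Real.sqrt_pos.2 hq
  have hz0 : z ≠ 0 := by
    intro h
    rw [h, norm_zero, ← hs] at hz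
    exact hs0.ne hz
  have h2 : (q : ℂ) / z = conj z := by
    rw [div_eq_iff hz0, mul_comm, Complex.mul_conj, Complex.normSq_eq_norm_sq, hz, ← hs,
      Real.sq_sqrt hq.le]
  refine ⟨by field_simp, 2 * z.re / Real.sqrt q, ?_, ?_⟩
  · rw [abs_div, abs_of_pos hs0, div_le_iff₀ hs0, abs_mul, abs_of_pos (by norm_num : (0 : ℝ) < 2)]
    have := Complex.abs_re_le_norm z
    rw [hz, ← hs] at this
    linarith
  · rw [div_mul_cancel₀ _ hs0.ne', h2, Complex.add_conj]

/-! ### Fixed points -/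

section
variable {K : Type} [Field K] [NumberField K]

/-- the number of the fixed points -/
noncomputable def fixS (S : Type) [MulAction (GK K) S] (σ : GK K) : ℕ :=
  Nat.card {s : S // σ • s = s}

theorem fixS_le (S : Type) [Finite S] [MulAction (GK K) S] (σ : GK K) :
    fixS S σ ≤ Nat.card S := Nat.card_le_card_of_injective _ Subtype.val_injective

theorem fixS_inv (S : Type) [MulAction (GK K) S] (σ : GK K) : fixS S σ⁻¹ = fixS S σ := by
  unfold fixS
  refine Nat.card_congr (Equiv.subtypeEquivRight fun s => ?_)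
  rw [inv_smul_eq_iff]
  exact eq_comm

theorem one_le_fixS (S : Type) [Finite S] [MulAction (GK K) S] (σ : GK K)
    (h : ∃ o : S, ∀ σ : GK K, σ • o = o) : 1 ≤ fixS S σ := by
  obtain ⟨o, ho⟩ := h
  have : Nonempty {s : S // σ • s = s} := ⟨⟨o, ho σ⟩⟩
  exact Nat.card_pos

theorem sum_permEigenvalues (S : Type) [Fintype S] [DecidableEq S] [MulAction (GK K) S]
    (σ : GK K) : (permEigenvalues (MulAction.toPerm σ : Equiv.Perm S)).sum = (fixS S σ : ℂ) := by
  unfold permEigenvalues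
  rw [← Matrix.trace_eq_sum_roots_charpoly, Matrix.trace_permutation]
  congr 1

/-- **Chebotarev's theorem and Burnside's lemma.** -/
theorem cheb_perm (S : Type) [Finite S] [MulAction (GK K) S]
    (hU : ∃ U : Subgroup (GK K), IsOpen (U : Set (GK K)) ∧ ∀ u ∈ U, ∀ s : S, u • s = s)
    (σ : HeightOneSpectrum (𝓞 K) → GK K) (hσ : ∀ v, IsFrob v (σ v)) :
    Tendsto (fun ε : ℝ => (EP (nm K) ε fun v => (fixS S (σ v) : ℝ)) / lam ε) (𝓝[>] 0)
      (𝓝 (Nat.card (MulAction.orbitRel.Quotient (GK K) S) : ℝ)) := by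
  classical
  set Φ : GK K →* Equiv.Perm S := MulAction.toPermHom (GK K) S with hΦ
  have hopen : IsOpen (Φ.ker : Set (GK K)) := by
    obtain ⟨U, h1, h2⟩ := hU
    refine Subgroup.isOpen_mono (H₁ := U) (fun u hu => ?_) h1
    rw [MonoidHom.mem_ker]
    exact Equiv.ext fun s => h2 u hu s
  have hfin : Finite (GK K ⧸ Φ.ker) := Subgroup.quotient_finite_of_isOpen _ hopen
  have h1 := real_mean Φ.ker hopen (fun g => (fixS S g : ℝ)) (by
      intro g u hu
      rw [MonoidHom.mem_ker] at hu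
      have hu' : ∀ s : S, u • s = s := fun s => Equiv.congr_fun hu s
      unfold fixS
      simp only [mul_smul, hu']) (by
      intro g ρ
      unfold fixS
      congr 1
      refine Nat.card_congr (Equiv.subtypeEquiv (MulAction.toPerm ρ⁻¹) fun s => ?_)
      simp only [MulAction.toPerm_apply, mul_smul]
      rw [eq_inv_smul_iff]) (by
      intro g
      rw [fixS_inv]) σ hσ 0
  have e1 : ∀ v, |(fixS S (σ v) : ℝ) * cz 0 v| = (fixS S (σ v) : ℝ) := by
    intro v
    have : cz (K := K) 0 v = 1 := by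
      unfold cz zz
      simp
    rw [this, mul_one, abs_of_nonneg (Nat.cast_nonneg _)]
  simp only [e1] at h1
  have e2 : kap 0 = 1 := by
    unfold kap
    rw [if_pos rfl]
  rw [e2, one_mul] at h1
  have e3 : avR Φ.ker (fun q => |(fixS S q.out : ℝ)|) =
      (Nat.card (MulAction.orbitRel.Quotient (GK K) S) : ℝ) := by
    have h2 := avR_ker Φ fun π => |((Nat.card {y // π y = y} : ℕ) : ℝ)|
    have h3 : (fun q : GK K ⧸ Φ.ker => |(fixS S q.out : ℝ)|) = fun q =>
        |((Nat.card {y // Φ q.out y = y} : ℕ) : ℝ)| := rfl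
    rw [h3, h2]
    let _ : Fintype S := Fintype.ofFinite S
    let _ : Fintype Φ.range := Fintype.ofFinite _
    let _ : Fintype (Quotient (MulAction.orbitRel Φ.range S)) := Fintype.ofFinite _
    have h4 := MulAction.sum_card_fixedBy_eq_card_orbits_mul_card_group Φ.range S
    rw [finsum_eq_sum_of_fintype]
    have h5 : ∑ g : Φ.range, |((Nat.card {y // (g : Equiv.Perm S) y = y} : ℕ) : ℝ)| =
        ((∑ g : Φ.range, Fintype.card (MulAction.fixedBy S g) : ℕ) : ℝ) := by
      rw [Nat.cast_sum]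
      refine Finset.sum_congr rfl fun g _ => ?_
      rw [abs_of_nonneg (Nat.cast_nonneg _), ← Nat.card_eq_fintype_card]
      congr 1
    rw [h5, h4, Nat.card_eq_fintype_card]
    have h6 : (Fintype.card Φ.range : ℝ) ≠ 0 := by exact_mod_cast Fintype.card_ne_zero
    push_cast
    rw [mul_comm, mul_inv_cancel_right₀ h6, ← Nat.card_eq_fintype_card]
    congr 1
    refine Nat.card_congr (Quotient.congr (Equiv.refl S) fun a b => ?_)
    change MulAction.orbitRel Φ.range S a b ↔ MulAction.orbitRel (GK K) S a b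
    rw [MulAction.orbitRel_apply, MulAction.orbitRel_apply, MulAction.mem_orbit_iff,
      MulAction.mem_orbit_iff]
    constructor
    · rintro ⟨⟨_, g, rfl⟩, hg⟩
      exact ⟨g, hg⟩
    · rintro ⟨g, hg⟩
      exact ⟨⟨Φ g, g, rfl⟩, hg⟩
  rw [e3] at h1
  exact h1

/-! ### The traces -/

/-- the sums of the products of `2j` eigenvalues on `H¹(A)` -/
theorem wedge_bound {g : ℕ} (hg : g = 2 ∨ g = 3) {v : HeightOneSpectrum (𝓞 K)}
    {γ : Fin (2 * g) → ℂ} {β : Fin g → ℂ} (hγ : ∀ i, ‖γ i‖ = (nm K v : ℝ) ^ ((1 : ℝ) / 2))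
    (h : Finset.univ.val.map γ =
      Finset.univ.val.map β + Finset.univ.val.map (fun i => ((nm K v : ℝ) : ℂ) / β i))
    {j : ℕ} (h0 : 0 < j) (hj : j < g) :
    ∃ E : ℝ, (g : ℝ) - 4 ≤ E ∧
      ∑ I ∈ (Finset.univ : Finset (Fin (2 * g))).powersetCard (2 * j), ∏ i ∈ I, γ i =
        ((E * (nm K v : ℝ) ^ j : ℝ) : ℂ) := by
  have hq : (0 : ℝ) < nm K v := by exact_mod_cast nm_pos v
  have hβ : ∀ i, ‖β i‖ = (nm K v : ℝ) ^ ((1 : ℝ) / 2) := by
    intro i
    have h1 : β i ∈ Finset.univ.val.map γ := by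
      rw [h]
      exact Multiset.mem_add.2 (Or.inl (Multiset.mem_map_of_mem _ (Finset.mem_univ i)))
    obtain ⟨l, -, hl⟩ := Multiset.mem_map.1 h1
    rw [← hl, hγ]
  have hsq : Real.sqrt (nm K v) * Real.sqrt (nm K v) = nm K v := Real.mul_self_sqrt hq.le
  rcases hg with rfl | rfl
  · have hj1 : j = 1 := by omega
    subst hj1
    obtain ⟨a1, x, hx, ax⟩ := pair_sum hq (hβ 0)
    obtain ⟨b1, y, hy, by'⟩ := pair_sum hq (hβ 1)
    have e1 : Finset.univ.val.map γ = Finset.univ.val.map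
        (![β 0, β 1, ((nm K v : ℝ) : ℂ) / β 0, ((nm K v : ℝ) : ℂ) / β 1] : Fin 4 → ℂ) := by
      rw [h]
      rfl
    refine ⟨2 + x * y, by have := two_bound hx hy; push_cast; linarith, ?_⟩
    have e2 := (esymm_congr e1 2).trans (e2_four _ _ _ _ _ a1 b1)
    refine e2.trans ?_
    rw [ax, by']
    have e3 : (2 + x * y) * (nm K v : ℝ) ^ 1 =
        2 * (nm K v : ℝ) + (x * Real.sqrt (nm K v)) * (y * Real.sqrt (nm K v)) := by
      linear_combination -(x * y) * hsq
    rw [e3]
    push_cast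
    ring
  · obtain ⟨a1, x, hx, ax⟩ := pair_sum hq (hβ 0)
    obtain ⟨b1, y, hy, by'⟩ := pair_sum hq (hβ 1)
    obtain ⟨c1, z, hz, cz'⟩ := pair_sum hq (hβ 2)
    have e1 : Finset.univ.val.map γ = Finset.univ.val.map
        (![β 0, β 1, β 2, ((nm K v : ℝ) : ℂ) / β 0, ((nm K v : ℝ) : ℂ) / β 1,
          ((nm K v : ℝ) : ℂ) / β 2] : Fin 6 → ℂ) := by
      rw [h]
      rfl
    refine ⟨3 + (x * y + x * z + y * z), by
      have := three_bound hx hy hz; push_cast; linarith, ?_⟩
    have e3 : (3 + (x * y + x * z + y * z)) * (nm K v : ℝ) =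
        3 * (nm K v : ℝ) + ((x * Real.sqrt (nm K v)) * (y * Real.sqrt (nm K v)) +
          (x * Real.sqrt (nm K v)) * (z * Real.sqrt (nm K v)) +
          (y * Real.sqrt (nm K v)) * (z * Real.sqrt (nm K v))) := by
      linear_combination -(x * y + x * z + y * z) * hsq
    have hj2 : j = 1 ∨ j = 2 := by omega
    rcases hj2 with rfl | rfl
    · have e2 := (esymm_congr e1 2).trans (e2_six _ _ _ _ _ _ _ a1 b1 c1)
      refine e2.trans ?_
      rw [ax, by', cz', pow_one, e3]
      push_cast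
      ring
    · have e2 := (esymm_congr e1 4).trans (e4_six _ _ _ _ _ _ _ a1 b1 c1)
      refine e2.trans ?_
      rw [ax, by', cz', pow_two, ← mul_assoc, e3]
      push_cast
      ring

variable {g : ℕ} {A X : Variety K} {S : Type} [Fintype S] [DecidableEq S] [MulAction (GK K) S]

/-- **The traces on the even cohomology of a Kummer surface or threefold.** -/
theorem kummer_trace (hg : g = 2 ∨ g = 3) (h : IsKummer g A X S)
    {σ : HeightOneSpectrum (𝓞 K) → GK K} (hσ : ∀ v, IsFrob v (σ v)) :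
    ∀ᶠ v in cofinite, (∀ j, 0 < j → j < g →
      (g : ℝ) - 4 + fixS S (σ v) ≤ X.t (2 * j) v) ∧ X.t 0 v = 1 ∧ X.t (2 * g) v = 1 ∧
      ∀ j, X.t (2 * j + 1) v = 0 := by
  refine h.frob.mono fun v hv => ?_
  obtain ⟨γ, β, α, hγ, hβ, hα, h0, h2, hj⟩ := hv (σ v) (hσ v)
  have hq : (0 : ℝ) < nm K v := by exact_mod_cast nm_pos v
  have hpow : ∀ j : ℕ, (nm K v : ℝ) ^ (((2 * j : ℕ) : ℝ) / 2) = (nm K v : ℝ) ^ j := by
    intro j
    have : (((2 * j : ℕ) : ℝ) / 2) = (j : ℝ) := by push_cast; ring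
    rw [this, Real.rpow_natCast]
  have hsum : ∀ k ≤ 2 * g, ∑ x, α k x = ((X.t k v * (nm K v : ℝ) ^ ((k : ℝ) / 2) : ℝ) : ℂ) := by
    intro k hk
    have hk' : k ≤ 2 * X.d := by rw [h.dim]; exact hk
    exact sum_eq hk' (hα k hk')
  refine ⟨fun j hj0 hjg => ?_, ?_, ?_, fun j => ?_⟩
  · have hnorm : ∀ i, ‖γ i‖ = (nm K v : ℝ) ^ ((1 : ℝ) / 2) := by
      intro i
      have := norm_eig hγ i
      rwa [Nat.cast_one] at this
    rw [nm_cast] at hβ
    obtain ⟨E, hE, hE2⟩ := wedge_bound hg hnorm hβ hj0 hjg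
    have e1 := congrArg Multiset.sum (hj j hj0 hjg)
    rw [Multiset.sum_add, Multiset.sum_map_mul_left, Multiset.map_id', sum_permEigenvalues,
      fixS_inv] at e1
    have e2 : ∑ x, α (2 * j) x = ((E * (nm K v : ℝ) ^ j : ℝ) : ℂ) +
        (Ideal.absNorm v.asIdeal : ℂ) ^ j * (fixS S (σ v) : ℂ) := by
      rw [← hE2]
      exact e1
    rw [hsum (2 * j) (by omega), hpow, nm_cast] at e2
    have e3 : X.t (2 * j) v * (nm K v : ℝ) ^ j = (E + fixS S (σ v)) * (nm K v : ℝ) ^ j := by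
      have : ((X.t (2 * j) v * (nm K v : ℝ) ^ j : ℝ) : ℂ) =
          (((E + fixS S (σ v)) * (nm K v : ℝ) ^ j : ℝ) : ℂ) := by
        rw [e2]
        push_cast
        ring
      exact Complex.ofReal_injective this
    have e4 := mul_right_cancel₀ (pow_pos hq j).ne' e3
    rw [e4]
    linarith
  · have e1 := hsum 0 (by omega)
    have e2 : ∑ x, α 0 x = 1 := by
      rw [Finset.sum_congr rfl fun x _ => h0 x, Finset.sum_const, Finset.card_univ,
        Fintype.card_fin, h.betti.1, one_smul]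
    rw [e2, Nat.cast_zero, zero_div, Real.rpow_zero, mul_one] at e1
    exact (Complex.ofReal_injective (e1.symm.trans Complex.ofReal_one.symm))
  · have e1 := hsum (2 * g) le_rfl
    have e2 : ∑ x, α (2 * g) x = (((nm K v : ℝ) ^ g : ℝ) : ℂ) := by
      rw [Finset.sum_congr rfl fun x _ => h2 x, Finset.sum_const, Finset.card_univ,
        Fintype.card_fin, h.betti.2.1, one_smul, nm_cast]
      push_cast
      rfl
    rw [e2, hpow] at e1
    have e3 := Complex.ofReal_injective e1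
    have e4 : 1 * (nm K v : ℝ) ^ g = X.t (2 * g) v * (nm K v : ℝ) ^ g := by
      rw [one_mul]; exact e3
    exact (mul_right_cancel₀ (pow_pos hq g).ne' e4).symm
  · have h3 := X.abs_t (2 * j + 1) v
    rw [h.betti.2.2 j, Nat.cast_zero] at h3
    exact abs_eq_zero.1 (le_antisymm h3 (abs_nonneg _))

/-- the number of the orbits on the points of order dividing two -/
theorem two_le_orbits (h : IsKummer g A X S) (hg : 0 < g) :
    2 ≤ Nat.card (MulAction.orbitRel.Quotient (GK K) S) := by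
  obtain ⟨o, ho⟩ := h.origin
  have h1 : 1 < Fintype.card S := by
    rw [h.card]
    exact Nat.one_lt_two_pow (by omega)
  obtain ⟨s, hs⟩ := Fintype.exists_ne_of_one_lt_card h1 o
  have hfin : Finite (MulAction.orbitRel.Quotient (GK K) S) := Quotient.finite _
  have hne : (Quotient.mk (MulAction.orbitRel (GK K) S) s) ≠ Quotient.mk _ o := by
    intro he
    have := Quotient.exact he
    change MulAction.orbitRel (GK K) S s o at this
    rw [MulAction.orbitRel_apply, MulAction.mem_orbit_iff] at this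
    obtain ⟨σ, hσ⟩ := this
    rw [ho] at hσ
    exact hs hσ.symm
  have : Nontrivial (MulAction.orbitRel.Quotient (GK K) S) := ⟨⟨_, _, hne⟩⟩
  exact Finite.one_lt_card

/-- **The edge for the even cohomology of Kummer surfaces and threefolds.** -/
theorem kummer_even (hg : g = 2 ∨ g = 3) (h : IsKummer g A X S) {j : ℕ} (h0 : 0 < j) (hj : j < g)
    {B : HeightOneSpectrum (𝓞 K) → ℂ[X]}
    (hB : IsEulerSystem X.X X.d (2 * j) (X.b (2 * j)) B) :
    (∀ η : ℝ, 0 < η → ∀ᶠ ε : ℝ in 𝓝[>] 0,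
      (Nat.card (MulAction.orbitRel.Quotient (GK K) S) : ℝ) + g - 4 - η ≤ size (2 * j) B ε) ∧
    ∀ m : ℤ, HasOrder (2 * j) B m →
      m ≤ 4 - g - Nat.card (MulAction.orbitRel.Quotient (GK K) S) := by
  classical
  choose σ hσ using exists_isFrob (F := K)
  set r := Nat.card (MulAction.orbitRel.Quotient (GK K) S) with hr
  have hj2 : 2 * j ≤ 2 * X.d := by rw [h.dim]; omega
  have h1 := base_size hj2 hB
  have hfix : ∀ v, |(fixS S (σ v) : ℝ)| ≤ (Nat.card S : ℝ) := fun v => by
    rw [abs_of_nonneg (Nat.cast_nonneg _)]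
    exact_mod_cast fixS_le S (σ v)
  have hconst : ∀ v : HeightOneSpectrum (𝓞 K), |(g : ℝ) - 4| ≤ |(g : ℝ) - 4| := fun v => le_rfl
  have h2 : ∀ η : ℝ, 0 < η → ∀ᶠ ε : ℝ in 𝓝[>] 0, (r : ℝ) + g - 4 - η ≤ size (2 * j) B ε := by
    intro η hη
    have h3 := EP_lower (φ := X.t (2 * j)) (ψ := fun v => ((g : ℝ) - 4) + fixS S (σ v))
      (X.abs_t (2 * j)) (C := |(g : ℝ) - 4| + Nat.card S)
      (fun v => (abs_add_le _ _).trans (add_le_add le_rfl (hfix v)))
      ((kummer_trace hg h hσ).mono fun v hv => hv.1 j h0 hj) (by positivity : 0 < η / 3)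
    have h4 := cheb_perm S h.cont σ hσ
    have h5 := EP_const (K := K) ((g : ℝ) - 4)
    have h6 := h5.add h4
    filter_upwards [h3, h1.2.eventually_lt_const (by positivity : 0 < η / 3),
      h6.eventually_const_lt (by linarith : ((g : ℝ) - 4) + r - η / 3 < ((g : ℝ) - 4) + r),
      self_mem_nhdsWithin] with ε a1 a2 a3 hε
    have hε0 : (0 : ℝ) < ε := hε
    rw [EP_add normSys hε0 hconst hfix, add_div] at a1
    have a4 : EP (nm K) ε (X.t (2 * j)) / lam ε =
      EP (nm K) ε (tF X.X X.d (2 * j) (X.b (2 * j)) K) / lam ε := rfl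
    rw [a4] at a1
    linarith
  refine ⟨h2, fun m hm => ?_⟩
  have hm' : HasOrder (2 * j) B (-(-m)) := by rwa [neg_neg]
  have h4 := size_lim h1.1 hm'
  have h5 : (r : ℝ) + g - 4 ≤ ((-m : ℤ) : ℝ) := le_of_forall_pos_le_add fun η hη => by
    have := ge_of_tendsto h4 (h2 η hη)
    linarith
  have h6 : (m : ℝ) ≤ ((4 - g - r : ℤ) : ℝ) := by
    push_cast at h5 ⊢
    linarith
  exact_mod_cast h6

/-- **No zero in any degree** for Kummer surfaces and threefolds. -/
theorem kummer_all (hg : g = 2 ∨ g = 3) (h : IsKummer g A X S) {i : ℕ} (hi : i ≤ 2 * g)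
    {B : HeightOneSpectrum (𝓞 K) → ℂ[X]} {m : ℤ}
    (hB : IsEulerSystem X.X X.d i (X.b i) B) (hm : HasOrder i B m) : m ≤ 0 := by
  classical
  have hg2 : 2 ≤ g := by omega
  choose σ hσ using exists_isFrob (F := K)
  have hnn : ∀ (_ : ∀ᶠ v in cofinite, 0 ≤ X.t i v), m ≤ 0 := by
    intro hnn
    have hi2 : i ≤ 2 * X.d := by rw [h.dim]; exact hi
    have h1 := base_size hi2 hB
    have hm' : HasOrder i B (-(-m)) := by rwa [neg_neg]
    have h4 := size_lim h1.1 hm'
    have h5 := comb_lim (κ := Unit) Finset.univ (fun _ => (1 : ℝ)) (fun _ => X.t i)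
      (fun _ => (X.b i : ℝ)) (fun _ v => X.abs_t i v)
      (fun _ => size i B) (fun _ _ => h1.2) 0 (hnn.mono fun v hv => by simpa using hv)
      (fun _ => ((-m : ℤ) : ℝ)) (fun _ _ => h4)
    simp only [Finset.univ_unique, Finset.sum_singleton, one_mul] at h5
    have : (0 : ℤ) ≤ -m := by exact_mod_cast h5
    omega
  have htr := kummer_trace hg h hσ
  rcases Nat.even_or_odd' i with ⟨j, rfl | rfl⟩
  · rcases Nat.eq_zero_or_pos j with rfl | hj0
    · exact hnn (htr.mono fun v hv => by rw [mul_zero, hv.2.1]; exact zero_le_one)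
    · rcases lt_or_eq_of_le (show j ≤ g by omega) with hjg | rfl
      · have h1 := (kummer_even hg h hj0 hjg hB).2 m hm
        have h2 := two_le_orbits h (by omega)
        omega
      · exact hnn (htr.mono fun v hv => by rw [hv.2.2.1]; exact zero_le_one)
  · exact hnn (htr.mono fun v hv => by rw [hv.2.2.2 j])

end

section
variable {K : Type} [Field K] [NumberField K] {ι : Type} [Fintype ι] {A X : ι → Variety K}
  {S : ι → Type} [∀ j, Fintype (S j)] [∀ j, DecidableEq (S j)] [∀ j, MulAction (GK K) (S j)]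

/-- **Products of Kummer threefolds.** -/
theorem kummer_products (h : ∀ j, IsKummer 3 (A j) (X j) (S j)) {i : ℕ}
    {B : HeightOneSpectrum (𝓞 K) → ℂ[X]} (hB : IsMultiSystem X i B) :
    (∀ η : ℝ, 0 < η → ∀ᶠ ε : ℝ in 𝓝[>] 0, -η ≤ size i B ε) ∧
    ∀ m : ℤ, HasOrder i B m → m ≤ 0 := by
  classical
  choose σ hσ using exists_isFrob (F := K)
  have h1 : ∀ᶠ v in cofinite, ∀ j, ∀ k ≤ 6, 0 ≤ (X j).t k v := by
    rw [Filter.eventually_all]
    intro j
    refine (kummer_trace (Or.inr rfl) (h j) hσ).mono fun v hv k hk => ?_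
    have hf : (1 : ℝ) ≤ fixS (S j) (σ v) := by
      exact_mod_cast one_le_fixS (S j) (σ v) (h j).origin
    rcases Nat.even_or_odd' k with ⟨l, rfl | rfl⟩
    · rcases Nat.eq_zero_or_pos l with rfl | hl0
      · rw [mul_zero, hv.2.1]; exact zero_le_one
      · rcases lt_or_eq_of_le (show l ≤ 3 by omega) with hl | rfl
        · have := hv.1 l hl0 hl
          push_cast at this
          linarith
        · rw [hv.2.2.1]; exact zero_le_one
    · rw [hv.2.2.2 l]
  have h2 := multi_lower (Y := X) hB (A := 0) (by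
    refine h1.mono fun v hv => ?_
    unfold MT
    refine Finset.sum_nonneg fun k hk => Finset.prod_nonneg fun j _ => hv j (k j) ?_
    have := (mem_multidegrees hk).1 j
    rw [(h j).dim] at this
    exact this)
  refine ⟨fun η hη => ?_, fun m hm => ?_⟩
  · have := h2.1 η hη
    simpa using this
  · have := h2.2 m hm
    rw [neg_zero] at this
    exact_mod_cast this

end

end Pool.Agent.J4.H34.ED
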