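import Pool.Agent.J4.H34.ED.MultiDefs
import Pool.Agent.W353.TD.Defs

/-!
# Kummer varieties: definitions

`A` is an abelian variety of dimension `g ≥ 2` over a number field `K`.  The Kummer variety `X` of `A` is
the quotient by `-1` of the blow-up of `A` at the set `S` of the `2^{2g}` points of order dividing two;
it is smooth and projective.  The odd cohomology of `X` vanishes, and
`H^{2j}(X) = ∧^{2j} H¹(A) ⊕ ℚ_ℓ(-j)^S`, `0 < j < g`.
-/

set_option autoImplicit false

namespace Pool.Agent.J4.H34.ED

open NumberField IsDedekindDomain Filter Topology Polynomial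
open Pool.Agent.W353.EF (IsFrobenius)
open Pool.Agent.W353.TD (IsFrobeniusElement)

/-- The multiset of the complex eigenvalues of the permutation matrix of a permutation. -/
noncomputable def permEigenvalues {S : Type} [Fintype S] [DecidableEq S] (π : Equiv.Perm S) :
    Multiset ℂ :=
  (π.permMatrix ℂ).charpoly.roots

/-- `X` has the cohomology of the Kummer variety of the abelian variety `A` of dimension `g`, and `S` is
the set of the points of order dividing two of `A` over the algebraic closure, with the action of the
absolute Galois group (trivial on an open subgroup, and the origin is a fixed point).  At almost all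
primes `v`, and for all arithmetic Frobenius elements `σ` at `v`:
* the eigenvalues `γ` of the geometric Frobenius on `H¹(A)` come in pairs `β`, `q / β`;
* the eigenvalues on `H^0(X)` and `H^{2g}(X)` are `1` and `q^g`, and the odd cohomology vanishes;
* the eigenvalues on `H^{2j}(X)`, `0 < j < g`, are the products of `2j` of the `γ` and the eigenvalues
  of the permutation `σ⁻¹` of `S`, multiplied by `q^j`. -/
structure IsKummer {K : Type} [Field K] [NumberField K] (g : ℕ) (A X : Variety K) (S : Type)
    [Fintype S] [DecidableEq S] [MulAction Gal(AlgebraicClosure K/K) S] : Prop where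
  /-- the dimension -/
  dim : X.d = g
  /-- the Betti numbers -/
  betti : X.b 0 = 1 ∧ X.b (2 * g) = 1 ∧ ∀ j, X.b (2 * j + 1) = 0
  /-- the action of the Galois group is continuous -/
  cont : ∃ U : Subgroup Gal(AlgebraicClosure K/K), IsOpen (U : Set Gal(AlgebraicClosure K/K)) ∧
    ∀ u ∈ U, ∀ s : S, u • s = s
  /-- the origin -/
  origin : ∃ o : S, ∀ σ : Gal(AlgebraicClosure K/K), σ • o = o
  /-- the number of the points of order dividing two -/
  card : Fintype.card S = 2 ^ (2 * g)
  /-- the eigenvalues of Frobenius -/
  frob : ∀ᶠ v : HeightOneSpectrum (𝓞 K) in cofinite, ∀ σ : Gal(AlgebraicClosure K/K),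
    IsFrobeniusElement v σ →
    ∃ (γ : Fin (2 * g) → ℂ) (β : Fin g → ℂ) (α : (k : ℕ) → Fin (X.b k) → ℂ),
      IsFrobenius A.X g 1 v γ ∧
      Finset.univ.val.map γ =
        Finset.univ.val.map β + Finset.univ.val.map (fun i => (Ideal.absNorm v.asIdeal : ℂ) / β i) ∧
      X.IsFrob v α ∧ (∀ x, α 0 x = 1) ∧ (∀ x, α (2 * g) x = (Ideal.absNorm v.asIdeal : ℂ) ^ g) ∧
      ∀ j, 0 < j → j < g → Finset.univ.val.map (α (2 * j)) =
        ((Finset.univ : Finset (Fin (2 * g))).powersetCard (2 * j)).val.map (fun I => ∏ i ∈ I, γ i) +
          (permEigenvalues (MulAction.toPerm σ⁻¹ : Equiv.Perm S)).map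
            (fun z => (Ideal.absNorm v.asIdeal : ℂ) ^ j * z)

end Pool.Agent.J4.H34.ED
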