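import Pool.Agent.J4.H34.ED.Psd

/-! The middle cohomology of the products of varieties of the same dimension. -/

set_option autoImplicit false

namespace Pool.Agent.J4.H34.ED

open Complex Filter Topology ComplexConjugate NumberField IsDedekindDomain Polynomial
open Pool.Agent.W540.BE Pool.Agent.W353.L1 Pool.Agent.W401.Cheb
open Pool.Agent.H341R2 (lam lam_tendsto)
open Pool.Agent.W353.PV (Eig alp tF pick_spec lim_ord)
open Pool.Agent.W353.EF (IsFrobenius LFun size HasOrder)

section
variable {K : Type} [Field K] [NumberField K] {n n' : ℕ}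
  {X : Set (MvPolynomial (Fin n) (𝓞 K))} {X' : Set (MvPolynomial (Fin n') (𝓞 K))}
  {d d' : ℕ} {b b' : ℕ → ℕ}

theorem tF_zero {v : HeightOneSpectrum (𝓞 K)} {α : (k : ℕ) → Fin (b k) → ℂ}
    (h : IsCohomology X d b v α) : tF X d 0 (b 0) K v = 1 := by
  have h1 := sum_eq (Nat.zero_le _) (h.2 0 (Nat.zero_le _)).1
  rw [Finset.sum_congr rfl fun j _ => h.1.2 j, Finset.sum_const, Finset.card_univ,
    Fintype.card_fin, h.1.1, one_smul] at h1
  have h2 : tF X d 0 (b 0) K v * (nm K v : ℝ) ^ (((0 : ℕ) : ℝ) / 2) = 1 := by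
    rw [h.1.1]
    exact_mod_cast h1.symm
  simpa using h2

theorem tF_top {v : HeightOneSpectrum (𝓞 K)} {α : (k : ℕ) → Fin (b k) → ℂ}
    (h : IsCohomology X d b v α) : tF X d (2 * d) (b (2 * d)) K v = 1 := by
  have h1 := tF_dual h (Nat.zero_le (2 * d))
  rw [Nat.sub_zero] at h1
  rw [h1, tF_zero h]

theorem abs_tF (k : ℕ) (v : HeightOneSpectrum (𝓞 K)) : |tF X d k (b k) K v| ≤ b k :=
  abs_tr_le _ _ _

theorem TT_mid {v : HeightOneSpectrum (𝓞 K)} {β : (k : ℕ) → Fin (b' k) → ℂ}
    (h : IsCohomology X' d b' v β) : TT X d b X' d b' (2 * d) v =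
      ∑ k ∈ Finset.range (2 * d + 1), tF X d k (b k) K v * tF X' d k (b' k) K v := by
  unfold TT degrees
  refine Finset.sum_nbij' (fun k => k.1) (fun k => (k, 2 * d - k)) ?_ ?_ ?_ ?_ ?_
  · intro k hk
    rw [Finset.mem_filter, Finset.mem_product] at hk
    exact hk.1.1
  · intro k hk
    rw [Finset.mem_range] at hk
    rw [Finset.mem_filter, Finset.mem_product, Finset.mem_range, Finset.mem_range]
    refine ⟨⟨?_, ?_⟩, ?_⟩ <;> simp only <;> omega
  · intro k hk
    rw [Finset.mem_filter, Finset.mem_product, Finset.mem_range, Finset.mem_range] at hk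
    refine Prod.ext rfl ?_
    simp only
    omega
  · intro k _
    rfl
  · intro k hk
    rw [Finset.mem_filter, Finset.mem_product, Finset.mem_range, Finset.mem_range] at hk
    have e : k.2 = 2 * d - k.1 := by omega
    rw [e, tF_dual h (by omega)]

theorem range_split (hd : 1 ≤ d) (F : ℕ → ℝ) : ∑ k ∈ Finset.range (2 * d + 1), F k =
    F 0 + F (2 * d) + ∑ k ∈ Finset.Ioo 0 (2 * d), F k := by
  have e : Finset.range (2 * d + 1) = insert 0 (insert (2 * d) (Finset.Ioo 0 (2 * d))) := by
    ext k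
    simp only [Finset.mem_range, Finset.mem_insert, Finset.mem_Ioo]
    omega
  rw [e, Finset.sum_insert, Finset.sum_insert]
  · ring
  · simp
  · simp only [Finset.mem_insert, Finset.mem_Ioo]
    omega

/-- the interesting part of the trace -/
noncomputable def RR' (X : Set (MvPolynomial (Fin n) (𝓞 K))) (d : ℕ) (b : ℕ → ℕ)
    (X' : Set (MvPolynomial (Fin n') (𝓞 K))) (b' : ℕ → ℕ) (v : HeightOneSpectrum (𝓞 K)) : ℝ :=
  ∑ k ∈ Finset.Ioo 0 (2 * d), tF X d k (b k) K v * tF X' d k (b' k) K v

theorem TT_mid' (hd : 1 ≤ d) {v : HeightOneSpectrum (𝓞 K)} {α : (k : ℕ) → Fin (b k) → ℂ}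
    {β : (k : ℕ) → Fin (b' k) → ℂ} (h : IsCohomology X d b v α)
    (h' : IsCohomology X' d b' v β) : TT X d b X' d b' (2 * d) v = 2 + RR' X d b X' b' v := by
  rw [TT_mid h', range_split hd, tF_zero h, tF_zero h', tF_top h, tF_top h']
  unfold RR'
  ring

theorem RR_self_le {M : ℕ} (hM : ∑ k ∈ Finset.Ioo 0 (2 * d), b k ^ 2 ≤ M)
    (v : HeightOneSpectrum (𝓞 K)) : RR' X d b X b v ≤ M := by
  have h1 : RR' X d b X b v ≤ ∑ k ∈ Finset.Ioo 0 (2 * d), (b k : ℝ) ^ 2 := by
    unfold RR'
    refine Finset.sum_le_sum fun k _ => ?_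
    rw [← sq, ← sq_abs]
    exact pow_le_pow_left₀ (abs_nonneg _) (abs_tF k v) 2
  refine h1.trans ?_
  exact_mod_cast hM

theorem RR_cross (v : HeightOneSpectrum (𝓞 K)) :
    2 * RR' X d b X' b' v ≤ RR' X d b X b v + RR' X' d b' X' b' v := by
  unfold RR'
  rw [Finset.mul_sum, ← Finset.sum_add_distrib]
  refine Finset.sum_le_sum fun k _ => ?_
  nlinarith [sq_nonneg (tF X d k (b k) K v - tF X' d k (b' k) K v)]

/-- the other degrees and the middle degree of `Y × Y` -/
theorem TT_le_mid {v : HeightOneSpectrum (𝓞 K)} {α : (k : ℕ) → Fin (b k) → ℂ}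
    (h : IsCohomology X d b v α) (i : ℕ) :
    |TT X d b X d b i v| ≤ TT X d b X d b (2 * d) v := by
  rw [TT_mid h]
  have h1 : |TT X d b X d b i v| ≤ ∑ k ∈ degrees d d i,
      ((tF X d k.1 (b k.1) K v) ^ 2 / 2 + (tF X d k.2 (b k.2) K v) ^ 2 / 2) := by
    unfold TT
    refine (Finset.abs_sum_le_sum_abs _ _).trans (Finset.sum_le_sum fun k _ => ?_)
    rw [abs_mul]
    nlinarith [sq_nonneg (|tF X d k.1 (b k.1) K v| - |tF X d k.2 (b k.2) K v|),
      sq_abs (tF X d k.1 (b k.1) K v), sq_abs (tF X d k.2 (b k.2) K v)]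
  have h2 : ∑ k ∈ degrees d d i, (tF X d k.1 (b k.1) K v) ^ 2 / 2 ≤
      ∑ k ∈ Finset.range (2 * d + 1), (tF X d k (b k) K v) ^ 2 / 2 := by
    rw [← Finset.sum_image (s := degrees d d i) (g := fun k => k.1)
      (f := fun k => (tF X d k (b k) K v) ^ 2 / 2)]
    · refine Finset.sum_le_sum_of_subset_of_nonneg ?_ fun k _ _ => by positivity
      intro k hk
      obtain ⟨k', hk', rfl⟩ := Finset.mem_image.1 hk
      obtain ⟨g1, -, -⟩ := mem_degrees hk'
      exact Finset.mem_range.2 (by omega)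
    · intro k hk l hl hkl
      obtain ⟨-, -, g1⟩ := mem_degrees (Finset.mem_coe.1 hk)
      obtain ⟨-, -, g2⟩ := mem_degrees (Finset.mem_coe.1 hl)
      simp only at hkl
      exact Prod.ext hkl (by omega)
  have h3 : ∑ k ∈ degrees d d i, (tF X d k.2 (b k.2) K v) ^ 2 / 2 ≤
      ∑ k ∈ Finset.range (2 * d + 1), (tF X d k (b k) K v) ^ 2 / 2 := by
    rw [← Finset.sum_image (s := degrees d d i) (g := fun k => k.2)
      (f := fun k => (tF X d k (b k) K v) ^ 2 / 2)]
    · refine Finset.sum_le_sum_of_subset_of_nonneg ?_ fun k _ _ => by positivity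
      intro k hk
      obtain ⟨k', hk', rfl⟩ := Finset.mem_image.1 hk
      obtain ⟨-, g1, -⟩ := mem_degrees hk'
      exact Finset.mem_range.2 (by omega)
    · intro k hk l hl hkl
      obtain ⟨-, -, g1⟩ := mem_degrees (Finset.mem_coe.1 hk)
      obtain ⟨-, -, g2⟩ := mem_degrees (Finset.mem_coe.1 hl)
      simp only at hkl
      exact Prod.ext (by omega) hkl
  rw [Finset.sum_add_distrib] at h1
  refine (h1.trans (add_le_add h2 h3)).trans (le_of_eq ?_)
  rw [← Finset.sum_add_distrib]
  exact Finset.sum_congr rfl fun k _ => by ring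

/-- **Self-products**, without continuation. -/
theorem self_size (hd : 1 ≤ d) {B : HeightOneSpectrum (𝓞 K) → ℂ[X]}
    (hB : IsProductSystem X d b X d b (2 * d) B) {η : ℝ} (hη : 0 < η) :
    (∀ᶠ ε : ℝ in 𝓝[>] 0, 2 - η ≤ size (2 * d) B ε) ∧
    ∀ (i : ℕ) (B' : HeightOneSpectrum (𝓞 K) → ℂ[X]), IsProductSystem X d b X d b i B' →
      ∀ᶠ ε : ℝ in 𝓝[>] 0, |size i B' ε| ≤ size (2 * d) B ε + η := by
  have hcoh : ∀ᶠ v in cofinite, ∃ α, IsCohomology X d b v α := hB.1.mono fun v hv => by
    obtain ⟨α, β, h, -⟩ := hv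
    exact ⟨α, h⟩
  constructor
  · have h1 := comb_size (K := K) (Finset.univ : Finset Unit) (fun _ => 1)
      (fun _ v => TT X d b X d b (2 * d) v)
      (fun _ => ∑ k ∈ degrees d d (2 * d), (b k.1 : ℝ) * b k.2) (fun _ v => abs_TT _ _)
      (fun _ ε => size (2 * d) B ε) (fun _ _ => (product_size (2 * d) hB).2) 2
      (hcoh.mono fun v hv => by
        obtain ⟨α, hα⟩ := hv
        rw [Finset.sum_const, Finset.card_univ, Fintype.card_unit, one_smul, one_mul,
          TT_mid' hd hα hα]
        have : 0 ≤ RR' X d b X b v := Finset.sum_nonneg fun k _ => mul_self_nonneg _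
        linarith) hη
    refine h1.mono fun ε hε => ?_
    simpa using hε
  · intro i B' hB'
    have key : ∀ e : ℝ, |e| = 1 → ∀ᶠ ε : ℝ in 𝓝[>] 0, -η ≤ size (2 * d) B ε + e * size i B' ε := by
      intro e he
      have h1 := comb_size (K := K) (Finset.univ : Finset Bool) (fun x => if x then 1 else e)
        (fun x v => if x then TT X d b X d b (2 * d) v else TT X d b X d b i v)
        (fun x => if x then ∑ k ∈ degrees d d (2 * d), (b k.1 : ℝ) * b k.2 else
          ∑ k ∈ degrees d d i, (b k.1 : ℝ) * b k.2)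
        (fun x v => by
          cases x
          · exact abs_TT _ _
          · exact abs_TT _ _)
        (fun x ε => if x then size (2 * d) B ε else size i B' ε)
        (fun x _ => by
          cases x
          · exact (product_size i hB').2
          · exact (product_size (2 * d) hB).2) 0
        (hcoh.mono fun v hv => by
          obtain ⟨α, hα⟩ := hv
          rw [Fintype.sum_bool]
          simp only [if_true, Bool.false_eq_true, if_false, one_mul]
          have h2 := TT_le_mid hα i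
          have h3 : |e * TT X d b X d b i v| ≤ TT X d b X d b (2 * d) v := by
            rw [abs_mul, he, one_mul]
            exact h2
          linarith [(abs_le.1 h3).1]) hη
      refine h1.mono fun ε hε => ?_
      rw [Fintype.sum_bool] at hε
      simpa using hε
    filter_upwards [key 1 (by simp), key (-1) (by simp)] with ε g1 g2
    exact abs_le.2 ⟨by linarith, by linarith⟩

/-- **Self-products.** -/
theorem self_order (hd : 1 ≤ d) {B : HeightOneSpectrum (𝓞 K) → ℂ[X]}
    (hB : IsProductSystem X d b X d b (2 * d) B) {r : ℤ} (hr : HasOrder (2 * d) B (-r)) :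
    2 ≤ r ∧ ∀ (i : ℕ) (B' : HeightOneSpectrum (𝓞 K) → ℂ[X]) (r' : ℤ),
      IsProductSystem X d b X d b i B' → HasOrder i B' (-r') → |r'| ≤ r := by
  have hl := size_lim (product_size (2 * d) hB).1 hr
  constructor
  · have h1 : (2 : ℝ) ≤ r := by
      refine le_of_forall_pos_le_add fun η hη => ?_
      have := ge_of_tendsto hl (self_size hd hB hη).1
      linarith
    exact_mod_cast h1
  · intro i B' r' hB' hr'
    have hl' := size_lim (product_size i hB').1 hr'
    have h1 : |(r' : ℝ)| ≤ r := by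
      refine le_of_forall_pos_le_add fun η hη => ?_
      exact le_of_tendsto_of_tendsto hl'.abs (hl.add_const η) ((self_size hd hB hη).2 i B' hB')
    exact_mod_cast h1

end

section
variable {K : Type} [Field K] [NumberField K] {ι : Type} [Fintype ι] [DecidableEq ι] {n : ι → ℕ}
  {X : ∀ j, Set (MvPolynomial (Fin (n j)) (𝓞 K))} {d : ℕ} {b : ι → ℕ → ℕ}
  {B : ι → ι → HeightOneSpectrum (𝓞 K) → ℂ[X]}

/-- **Families of varieties of the same dimension.** -/
theorem family (hd : 1 ≤ d) (hB : ∀ j k, j ≠ k →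
      IsProductSystem (X j) d (b j) (X k) d (b k) (2 * d) (B j k))
    {r : ι → ι → ℤ} (hr : ∀ j k, j ≠ k → HasOrder (2 * d) (B j k) (-r j k)) {M : ℕ}
    (hM : ∀ j, ∑ k ∈ Finset.Ioo 0 (2 * d), b j k ^ 2 ≤ M) :
    3 * (Fintype.card ι * (Fintype.card ι - 1)) ≤ Fintype.card ι * M +
      (M + 3) * ((Finset.univ : Finset (ι × ι)).filter fun p => p.1 ≠ p.2 ∧ 0 ≤ r p.1 p.2).card := by
  classical
  rcases subsingleton_or_nontrivial ι with hs | hnt
  · have : Fintype.card ι * (Fintype.card ι - 1) = 0 := by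
      have := Fintype.card_le_one_iff_subsingleton.2 hs
      rcases Nat.le_one_iff_eq_zero_or_eq_one.1 this with h | h <;> rw [h]
    rw [this]
    exact Nat.zero_le _
  -- the off-diagonal pairs
  set O : Finset (ι × ι) := Finset.univ.filter fun p => p.1 ≠ p.2 with hO
  set N : ℕ := Fintype.card ι with hN
  have hcoh : ∀ᶠ v in cofinite, ∀ j, ∃ α, IsCohomology (X j) d (b j) v α := by
    rw [Filter.eventually_all]
    intro j
    obtain ⟨k, hk⟩ := exists_ne j
    refine (hB j k hk.symm).1.mono fun v hv => ?_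
    obtain ⟨α, β, h, -⟩ := hv
    exact ⟨α, h⟩
  have hOcard : O.card = N * (N - 1) := by
    have h1 : O = (Finset.univ : Finset (ι × ι)) \ Finset.univ.filter fun p => p.1 = p.2 := by
      ext p
      simp [hO]
    have h2 : ((Finset.univ : Finset (ι × ι)).filter fun p => p.1 = p.2).card = N := by
      rw [hN, ← Finset.card_univ]
      exact Finset.card_nbij' (fun p => p.1) (fun j => (j, j)) (fun _ _ => Finset.mem_univ _)
        (fun j _ => by simp) (fun p hp => by
          rw [Finset.mem_coe, Finset.mem_filter] at hp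
          exact Prod.ext rfl hp.2) (fun _ _ => rfl)
    rw [h1, Finset.card_sdiff_of_subset (Finset.filter_subset _ _), h2, Finset.card_univ,
      Fintype.card_prod, ← hN, Nat.mul_sub, mul_one]
  -- the sum of the orders
  have hsum : (2 * (N * (N - 1) : ℕ) - N * M : ℝ) ≤ ∑ p ∈ O, (r p.1 p.2 : ℝ) := by
    have h1 := comb_lim (K := K) O (fun _ => 1)
      (fun p v => TT (X p.1) d (b p.1) (X p.2) d (b p.2) (2 * d) v)
      (fun p => ∑ k ∈ degrees d d (2 * d), (b p.1 k.1 : ℝ) * b p.2 k.2) (fun _ v => abs_TT _ _)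
      (fun p ε => size (2 * d) (B p.1 p.2) ε)
      (fun p hp => (product_size (2 * d) (hB p.1 p.2 (Finset.mem_filter.1 hp).2)).2)
      (2 * (N * (N - 1) : ℕ) - N * M)
      (hcoh.mono fun v hv => by
        have e1 : ∀ p ∈ O, (1 : ℝ) * TT (X p.1) d (b p.1) (X p.2) d (b p.2) (2 * d) v =
            2 + RR' (X p.1) d (b p.1) (X p.2) (b p.2) v := by
          intro p _
          obtain ⟨α, hα⟩ := hv p.1
          obtain ⟨β, hβ⟩ := hv p.2
          rw [one_mul, TT_mid' hd hα hβ]
        rw [Finset.sum_congr rfl e1, Finset.sum_add_distrib, Finset.sum_const, hOcard]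
        have e2 : 0 ≤ ∑ p : ι × ι, RR' (X p.1) d (b p.1) (X p.2) (b p.2) v := by
          unfold RR'
          rw [Finset.sum_comm]
          refine Finset.sum_nonneg fun k _ => ?_
          rw [Fintype.sum_prod_type]
          simp only
          rw [← Finset.sum_mul_sum]
          exact mul_self_nonneg _
        have e3 : ∑ p : ι × ι, RR' (X p.1) d (b p.1) (X p.2) (b p.2) v =
            ∑ p ∈ O, RR' (X p.1) d (b p.1) (X p.2) (b p.2) v +
            ∑ j, RR' (X j) d (b j) (X j) (b j) v := by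
          rw [← Finset.sum_filter_add_sum_filter_not Finset.univ
            (fun p : ι × ι => p.1 ≠ p.2), ← hO]
          congr 1
          refine Finset.sum_nbij' (fun p => p.1) (fun j => (j, j)) (fun _ _ => Finset.mem_univ _)
            (fun j _ => by simp) (fun p hp => ?_) (fun _ _ => rfl) (fun p hp => ?_)
          · rw [Finset.mem_filter, not_not] at hp
            exact Prod.ext rfl hp.2
          · rw [Finset.mem_filter, not_not] at hp
            have e : p = (p.1, p.1) := Prod.ext rfl hp.2.symm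
            rw [e]
        have e4 : ∑ j, RR' (X j) d (b j) (X j) (b j) v ≤ N * M := by
          refine (Finset.sum_le_sum fun j _ => RR_self_le (hM j) v).trans ?_
          rw [Finset.sum_const, Finset.card_univ, ← hN, nsmul_eq_mul]
        rw [nsmul_eq_mul]
        linarith) (fun p => (r p.1 p.2 : ℝ))
      (fun p hp => size_lim (product_size (2 * d) (hB p.1 p.2 (Finset.mem_filter.1 hp).2)).1
        (hr p.1 p.2 (Finset.mem_filter.1 hp).2))
    simpa using h1
  -- each order
  have hone : ∀ p ∈ O, (r p.1 p.2 : ℝ) ≤ 2 + M := by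
    intro p hp
    have hp' := (Finset.mem_filter.1 hp).2
    have h1 := comb_lim (K := K) (Finset.univ : Finset Unit) (fun _ => -1)
      (fun _ v => TT (X p.1) d (b p.1) (X p.2) d (b p.2) (2 * d) v)
      (fun _ => ∑ k ∈ degrees d d (2 * d), (b p.1 k.1 : ℝ) * b p.2 k.2) (fun _ v => abs_TT _ _)
      (fun _ ε => size (2 * d) (B p.1 p.2) ε)
      (fun _ _ => (product_size (2 * d) (hB p.1 p.2 hp')).2) (-(2 + M))
      (hcoh.mono fun v hv => by
        obtain ⟨α, hα⟩ := hv p.1
        obtain ⟨β, hβ⟩ := hv p.2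
        rw [Finset.sum_const, Finset.card_univ, Fintype.card_unit, one_smul, TT_mid' hd hα hβ]
        have g1 := RR_cross (X := X p.1) (d := d) (b := b p.1) (X' := X p.2) (b' := b p.2) v
        have g2 := RR_self_le (X := X p.1) (hM p.1) v
        have g3 := RR_self_le (X := X p.2) (hM p.2) v
        linarith) (fun _ => (r p.1 p.2 : ℝ))
      (fun _ _ => size_lim (product_size (2 * d) (hB p.1 p.2 hp')).1 (hr p.1 p.2 hp'))
    rw [Finset.sum_const, Finset.card_univ, Fintype.card_unit, one_smul] at h1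
    linarith
  -- counting
  set G : Finset (ι × ι) := Finset.univ.filter fun p => p.1 ≠ p.2 ∧ 0 ≤ r p.1 p.2 with hG
  have hGO : G ⊆ O := fun p hp => by
    rw [hG, Finset.mem_filter] at hp
    rw [hO, Finset.mem_filter]
    exact ⟨hp.1, hp.2.1⟩
  have hle : ∑ p ∈ O, (r p.1 p.2 : ℝ) ≤ ∑ p ∈ O, (-1 + if p ∈ G then (M + 3 : ℝ) else 0) := by
    refine Finset.sum_le_sum fun p hp => ?_
    by_cases hpG : p ∈ G
    · rw [if_pos hpG]
      have := hone p hp
      linarith
    · rw [if_neg hpG, add_zero]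
      have h1 : r p.1 p.2 ≤ -1 := by
        by_contra hcon
        refine hpG ?_
        rw [hG, Finset.mem_filter]
        exact ⟨Finset.mem_univ _, (Finset.mem_filter.1 hp).2, by omega⟩
      exact_mod_cast h1
  rw [Finset.sum_add_distrib, Finset.sum_const, hOcard, Finset.sum_ite_mem,
    Finset.inter_eq_right.2 hGO, Finset.sum_const, nsmul_eq_mul, nsmul_eq_mul] at hle
  have hfin : (3 * (N * (N - 1) : ℕ) : ℝ) ≤ N * M + (M + 3) * G.card := by
    have := hsum.trans hle
    linarith
  exact_mod_cast hfin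

end

end Pool.Agent.J4.H34.ED
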