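import Pool.Agent.W353.EF.Defs

/-!
# The edge of the L-functions of the products of several varieties: definitions

`Y_j`, `j ∈ ι`, are finitely many smooth projective varieties over a number field `K`.  By the theorem
of Künneth `H^i(∏ Y_j)` is the sum of the spaces `⊗_j H^{k_j}(Y_j)`, `∑ k_j = i`.
-/

set_option autoImplicit false

namespace Pool.Agent.J4.H34.ED

open NumberField IsDedekindDomain Filter Topology Polynomial
open Pool.Agent.W353.EF (IsFrobenius)

/-- The data of a projective variety over a number field `K`: the homogeneous equations `X` with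
coefficients in `𝓞_K`, in `n` variables, the dimension `d` and the Betti numbers `b k`. -/
structure Variety (K : Type) [Field K] where
  /-- the number of the variables -/
  n : ℕ
  /-- the equations -/
  X : Set (MvPolynomial (Fin n) (𝓞 K))
  /-- the dimension -/
  d : ℕ
  /-- the Betti numbers -/
  b : ℕ → ℕ

section
variable {K : Type} [Field K] [NumberField K]

/-- `α k 1, …, α k (b k)` are, for `k = 0, …, 2d`, the eigenvalues of the geometric Frobenius at the
prime `v` of `K` on `H^k(Y)` (see `IsFrobenius` in `Pool.Agent.W353.EF.Defs`: they are determined by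
the numbers of points over the finite extensions of the residue field of `v`, and their absolute values
are `q_v^{k/2}`). -/
def Variety.IsFrob (Y : Variety K) (v : HeightOneSpectrum (𝓞 K)) (α : (k : ℕ) → Fin (Y.b k) → ℂ) :
    Prop :=
  ∀ k ≤ 2 * Y.d, IsFrobenius Y.X Y.d k v (α k)

variable {ι : Type} [Fintype ι]

open Classical in
/-- The families `k` of degrees, `0 ≤ k_j ≤ 2 dim Y_j`, with `∑ k_j = i`. -/
noncomputable def multidegrees (Y : ι → Variety K) (i : ℕ) : Finset (ι → ℕ) :=
  (Fintype.piFinset fun j => Finset.range (2 * (Y j).d + 1)).filter fun k => ∑ j, k j = i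

open Classical in
/-- The polynomials `B v` are the Euler factors of `L(H^i(∏ Y_j), s)`: for almost all primes `v`,
`B_v(z) = ∏ (1 - (∏_j α_j) z)`, where `α_j` runs through the eigenvalues of Frobenius on
`H^{k_j}(Y_j)` and `k` through the families of degrees with `∑ k_j = i`; at the other primes `B v`
is an arbitrary polynomial, and no factor `1 / B_v(q_v^{-s})` has a pole at `s = i/2 + 1`. -/
def IsMultiSystem (Y : ι → Variety K) (i : ℕ) (B : HeightOneSpectrum (𝓞 K) → ℂ[X]) : Prop :=
  (∀ᶠ v in cofinite, ∃ α : (j : ι) → (k : ℕ) → Fin ((Y j).b k) → ℂ, (∀ j, (Y j).IsFrob v (α j)) ∧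
    ∀ z : ℂ, (B v).eval z = ∏ k ∈ multidegrees Y i, ∏ x : (j : ι) → Fin ((Y j).b (k j)),
      (1 - (∏ j, α j (k j) (x j)) * z)) ∧
  ∀ v, (B v).eval ((Ideal.absNorm v.asIdeal : ℂ) ^ (-((i : ℂ) / 2 + 1))) ≠ 0

end

end Pool.Agent.J4.H34.ED
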