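import Pool.Agent.Y722.EP.Link

/-! Sizes of Euler products with eigenvalues indexed by a finite type, and mean values at the edge. -/

set_option autoImplicit false

namespace Pool.Agent.J4.H34.ED

open Complex Filter Topology NumberField IsDedekindDomain Polynomial
open Pool.Agent.W540.BE Pool.Agent.W353.L1 Pool.Agent.W401.Cheb
open Pool.Agent.H341R2 (lam lam_tendsto)
open Pool.Agent.W353.EF (LFun)

section
variable {K : Type} [Field K] [NumberField K]

/-- bounded functions that are equal at almost all primes -/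
theorem EP_congr_cof {φ ψ : HeightOneSpectrum (𝓞 K) → ℝ} {B C : ℝ} (hφ : ∀ v, |φ v| ≤ B)
    (hψ : ∀ v, |ψ v| ≤ C) (h : ∀ᶠ v in cofinite, φ v = ψ v) :
    Tendsto (fun ε : ℝ => EP (nm K) ε φ / lam ε - EP (nm K) ε ψ / lam ε) (𝓝[>] 0) (𝓝 0) := by
  have hψ' : ∀ v, |(-1 : ℝ) * ψ v| ≤ C := fun v => by
    rw [abs_mul, abs_neg, abs_one, one_mul]
    exact hψ v
  have h1 := Pool.Agent.Y722.EP.EP_fin (φ := fun v => φ v + (-1) * ψ v) (B := B + C)
    (fun v => (abs_add_le _ _).trans (add_le_add (hφ v) (hψ' v)))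
    (h.mono fun v hv => by rw [hv]; ring)
  refine h1.congr' ?_
  filter_upwards [self_mem_nhdsWithin] with ε hε
  have hε0 : (0 : ℝ) < ε := hε
  rw [EP_add normSys hε0 hφ hψ', EP_const_mul]
  ring

/-- the number of the primes -/
theorem EP_const (c : ℝ) :
    Tendsto (fun ε : ℝ => (EP (nm K) ε fun _ => c) / lam ε) (𝓝[>] 0) (𝓝 c) := by
  have h1 := (EP_one K).const_mul c
  rw [mul_one] at h1
  refine h1.congr fun ε => ?_
  rw [← mul_div_assoc, ← EP_const_mul]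
  simp only [mul_one]

/-- a lower bound at almost all primes -/
theorem EP_lower {φ ψ : HeightOneSpectrum (𝓞 K) → ℝ} {B C : ℝ} (hφ : ∀ v, |φ v| ≤ B)
    (hψ : ∀ v, |ψ v| ≤ C) (h : ∀ᶠ v in cofinite, ψ v ≤ φ v) {η : ℝ} (hη : 0 < η) :
    ∀ᶠ ε : ℝ in 𝓝[>] 0, EP (nm K) ε ψ / lam ε - η ≤ EP (nm K) ε φ / lam ε := by
  have h1 : ∀ v, |min (ψ v) (φ v)| ≤ max B C := fun v => by
    rcases min_choice (ψ v) (φ v) with e | e
    · rw [e]; exact (hψ v).trans (le_max_right _ _)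
    · rw [e]; exact (hφ v).trans (le_max_left _ _)
  have h2 := EP_congr_cof (φ := fun v => min (ψ v) (φ v)) (ψ := ψ) h1 hψ
    (h.mono fun v hv => min_eq_left hv)
  filter_upwards [h2.eventually_lt_const hη, h2.eventually_const_lt (neg_lt_zero.2 hη),
    self_mem_nhdsWithin, lam_tendsto.eventually_gt_atTop 0] with ε h3 h4 hε hl
  have hε0 : (0 : ℝ) < ε := hε
  have h5 : EP (nm K) ε (fun v => min (ψ v) (φ v)) ≤ EP (nm K) ε φ :=
    EP_mono h1 hφ (fun v => min_le_right _ _) hε0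
  have h6 := div_le_div_of_nonneg_right h5 hl.le
  linarith

/-- **The size of an Euler product** with eigenvalues indexed by a finite type. -/
theorem size_fintype {κ : Type} [Fintype κ] (w : ℝ) (α : HeightOneSpectrum (𝓞 K) → κ → ℂ)
    (B : HeightOneSpectrum (𝓞 K) → ℂ[X]) {T : HeightOneSpectrum (𝓞 K) → ℝ} {C : ℝ}
    (hT : ∀ v, |T v| ≤ C)
    (hα : ∀ᶠ v in cofinite, (∀ j, ‖α v j‖ = (nm K v : ℝ) ^ w) ∧
      (∑ j, α v j = ((T v * (nm K v : ℝ) ^ w : ℝ) : ℂ)) ∧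
      ∀ z : ℂ, (B v).eval z = ∏ j, (1 - α v j * z))
    (hB0 : ∀ v, (B v).eval (((nm K v : ℕ) : ℂ) ^ (-(w + 1 : ℂ))) ≠ 0) :
    (∀ᶠ ε : ℝ in 𝓝[>] 0, LFun B (w + 1 + ε) ≠ 0) ∧
    Tendsto (fun ε : ℝ => EP (nm K) ε T / lam ε -
      Real.log ‖LFun B (w + 1 + ε)‖ / Real.log (1 / ε)) (𝓝[>] 0) (𝓝 0) := by
  classical
  set e := Fintype.equivFin κ with he
  set α' : HeightOneSpectrum (𝓞 K) → Fin (Fintype.card κ) → ℂ := fun v j => α v (e.symm j)
    with hα'
  have hs : ∀ v, ∑ j, α' v j = ∑ j, α v j := fun v =>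
    Equiv.sum_comp e.symm (fun j => α v j)
  have h1 := Pool.Agent.Y722.EP.size_plain w α' B (by
    refine hα.mono fun v hv => ⟨⟨fun j => hv.1 _, ?_⟩, fun z => ?_⟩
    · rw [hs, hv.2.1, Complex.ofReal_im]
    · rw [hv.2.2 z]
      exact (Equiv.prod_comp e.symm (fun j => 1 - α v j * z)).symm) hB0
  refine ⟨h1.1, ?_⟩
  have h2 := EP_congr_cof (φ := T) (ψ := fun v => tr w α' v) hT (fun v => abs_tr_le _ _ _)
    (hα.mono fun v hv => by
      have hq : (0 : ℝ) < nm K v := by exact_mod_cast nm_pos v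
      unfold tr
      rw [if_pos ⟨fun j => hv.1 _, by rw [hs, hv.2.1, Complex.ofReal_im]⟩, hs, hv.2.1,
        Complex.ofReal_re, mul_assoc, ← Real.rpow_add hq, add_neg_cancel, Real.rpow_zero,
        mul_one])
  have h3 := h2.add h1.2
  rw [add_zero] at h3
  refine h3.congr fun ε => ?_
  ring

end

end Pool.Agent.J4.H34.ED
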