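import Pool.Agent.J4.H34.ED.PowersDefs
import Pool.Agent.J4.H34.ED.Kummer

/-! Products of varieties with coherent signs: the lower bounds for the traces, and the orders at the
edge in the even degrees. -/

set_option autoImplicit false

namespace Pool.Agent.J4.H34.ED

open Complex Filter Topology ComplexConjugate NumberField IsDedekindDomain Polynomial
open Pool.Agent.W540.BE Pool.Agent.W353.L1 Pool.Agent.W401.Cheb
open Pool.Agent.H341R2 (lam lam_tendsto)
open Pool.Agent.W353.PV (Eig alp tF pick_spec)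
open Pool.Agent.W353.EF (IsFrobenius IsEulerSystem LFun size HasOrder)
open Pool.Agent.W353.TD (IsFrobeniusElement)

/-- sums of numbers of absolute value `Q`, at least half of them equal to `Q` -/
theorem half_sum {N : ℕ} (f : Fin N → ℂ) {Q : ℝ} (hQ : 0 ≤ Q) (hn : ∀ x, ‖f x‖ = Q)
    (h : N ≤ 2 * Nat.card {x // f x = (Q : ℂ)}) : 0 ≤ (∑ x, f x).re := by
  classical
  rw [Complex.re_sum]
  have key : ∀ x, 2 * (if f x = (Q : ℂ) then Q else 0) - Q ≤ (f x).re := by
    intro x
    split_ifs with hx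
    · rw [hx, Complex.ofReal_re]
      linarith
    · have := Complex.abs_re_le_norm (f x)
      rw [hn x] at this
      linarith [(abs_le.1 this).1]
  refine le_trans ?_ (Finset.sum_le_sum fun x _ => key x)
  rw [Finset.sum_sub_distrib, ← Finset.mul_sum, ← Finset.sum_filter, Finset.sum_const,
    Finset.sum_const, Finset.card_univ, Fintype.card_fin, nsmul_eq_mul, nsmul_eq_mul]
  rw [Nat.card_eq_fintype_card, Fintype.card_subtype] at h
  have h2 : (N : ℝ) ≤ 2 * ((Finset.univ.filter fun x => f x = (Q : ℂ)).card : ℝ) := by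
    exact_mod_cast h
  have h3 : 0 ≤ (2 * ((Finset.univ.filter fun x => f x = (Q : ℂ)).card : ℝ) - N) * Q :=
    mul_nonneg (by linarith) hQ
  linarith

section
variable {K : Type} [Field K] [NumberField K] {ι : Type} [Fintype ι] {Y : ι → Variety K}

/-- the products of the traces are nonnegative in the even degrees -/
theorem prod_nonneg {n : ℕ} {e : ℝ} (he : e = 1 ∨ e = -1) {v : HeightOneSpectrum (𝓞 K)}
    (h : ∀ j, ∀ k ≤ 2 * (Y j).d, (Even k → 0 ≤ (Y j).t k v) ∧ (Odd k → 0 ≤ e * (Y j).t k v))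
    {k : ι → ℕ} (hk : k ∈ multidegrees Y (2 * n)) : 0 ≤ ∏ j, (Y j).t (k j) v := by
  obtain ⟨h1, h2⟩ := mem_multidegrees hk
  have hee : e * e = 1 := by rcases he with rfl | rfl <;> norm_num
  have h3 : ∏ j, (Y j).t (k j) v = ∏ j, (e ^ (k j) * (Y j).t (k j) v) := by
    rw [Finset.prod_mul_distrib, Finset.prod_pow_eq_pow_sum, h2, pow_mul, pow_two, hee, one_pow,
      one_mul]
  rw [h3]
  refine Finset.prod_nonneg fun j _ => ?_
  rcases Nat.even_or_odd' (k j) with ⟨l, hl | hl⟩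
  · have h4 := (h j (k j) (h1 j)).1 ⟨l, by omega⟩
    rw [hl] at h4 ⊢
    rw [pow_mul, pow_two, hee, one_pow, one_mul]
    exact h4
  · have h4 := (h j (k j) (h1 j)).2 ⟨l, hl⟩
    rw [hl] at h4 ⊢
    rw [pow_succ, pow_mul, pow_two, hee, one_pow, one_mul]
    exact h4

/-- **No zeros in the even degrees for coherent families.** -/
theorem coherent_even (h : IsCoherent Y) {n : ℕ} {B : HeightOneSpectrum (𝓞 K) → ℂ[X]}
    (hB : IsMultiSystem Y (2 * n) B) :
    (∀ η : ℝ, 0 < η → ∀ᶠ ε : ℝ in 𝓝[>] 0, -η ≤ size (2 * n) B ε) ∧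
    ∀ m : ℤ, HasOrder (2 * n) B m → m ≤ 0 := by
  have h2 := multi_lower (Y := Y) hB (A := 0) (by
    refine h.mono fun v hv => ?_
    obtain ⟨e, α, he, hα, hs⟩ := hv
    have hq : (0 : ℝ) < nm K v := by exact_mod_cast nm_pos v
    have h3 : ∀ j, ∀ k ≤ 2 * (Y j).d,
        (Even k → 0 ≤ (Y j).t k v) ∧ (Odd k → 0 ≤ e * (Y j).t k v) := by
      intro j k hk
      have h4 : (∑ x, α j k x).re = (Y j).t k v * (nm K v : ℝ) ^ ((k : ℝ) / 2) := by
        have h5 := sum_eq hk (hα j k hk)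
        rw [h5, Complex.ofReal_re]
        rfl
      have h6 : (0 : ℝ) < (nm K v : ℝ) ^ ((k : ℝ) / 2) := Real.rpow_pos_of_pos hq _
      have h7 := hs j k hk
      rw [h4] at h7
      refine ⟨fun hek => ?_, fun hok => ?_⟩
      · exact nonneg_of_mul_nonneg_left (h7.1 hek) h6
      · have := h7.2 hok
        rw [← mul_assoc] at this
        exact nonneg_of_mul_nonneg_left this h6
    unfold MT
    exact Finset.sum_nonneg fun k hk => prod_nonneg he h3 hk)
  refine ⟨fun η hη => ?_, fun m hm => ?_⟩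
  · have := h2.1 η hη
    simpa using this
  · have := h2.2 m hm
    rw [neg_zero] at this
    exact_mod_cast this

/-- **No zeros in any degree for coherent families without odd cohomology.** -/
theorem coherent_all (h : IsCoherent Y) (h0 : ∀ j k, Odd k → (Y j).b k = 0) {i : ℕ}
    {B : HeightOneSpectrum (𝓞 K) → ℂ[X]} (hB : IsMultiSystem Y i B) :
    (∀ η : ℝ, 0 < η → ∀ᶠ ε : ℝ in 𝓝[>] 0, -η ≤ size i B ε) ∧
    ∀ m : ℤ, HasOrder i B m → m ≤ 0 := by
  rcases Nat.even_or_odd' i with ⟨n, rfl | rfl⟩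
  · exact coherent_even h hB
  have h2 := multi_lower (Y := Y) hB (A := 0) (by
    refine Filter.Eventually.of_forall fun v => ?_
    unfold MT
    refine Finset.sum_nonneg fun k hk => ?_
    obtain ⟨-, h1⟩ := mem_multidegrees hk
    obtain ⟨j, hj⟩ : ∃ j, Odd (k j) := by
      by_contra hcon
      push Not at hcon
      have : Even (∑ j, k j) := Finset.even_sum _ fun j _ => by
        have := hcon j
        rwa [Nat.not_odd_iff_even] at this
      rw [h1] at this
      obtain ⟨l, hl⟩ := this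
      omega
    have h3 := (Y j).abs_t (k j) v
    rw [h0 j (k j) hj, Nat.cast_zero] at h3
    rw [Finset.prod_eq_zero (Finset.mem_univ j) (abs_eq_zero.1 (le_antisymm h3 (abs_nonneg _)))])
  refine ⟨fun η hη => ?_, fun m hm => ?_⟩
  · have := h2.1 η hη
    simpa using this
  · have := h2.2 m hm
    rw [neg_zero] at this
    exact_mod_cast this

/-- half Tate families are coherent -/
theorem half_coherent (h : IsHalfTate Y) : IsCoherent Y := by
  classical
  refine h.2.mono fun v hv => ?_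
  obtain ⟨α, hα, h1⟩ := hv
  refine ⟨1, α, Or.inl rfl, hα, fun j k hk => ⟨fun hek => ?_, fun hok => ?_⟩⟩
  · obtain ⟨l, rfl⟩ := hek
    rw [← two_mul] at hk ⊢
    have hq : (0 : ℝ) < nm K v := by exact_mod_cast nm_pos v
    have hpow : (nm K v : ℝ) ^ (((2 * l : ℕ) : ℝ) / 2) = (nm K v : ℝ) ^ l := by
      have : (((2 * l : ℕ) : ℝ) / 2) = (l : ℝ) := by push_cast; ring
      rw [this, Real.rpow_natCast]
    refine half_sum (Q := (nm K v : ℝ) ^ l) _ (pow_pos hq l).le (fun x => by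
      rw [norm_eig (hα j (2 * l) hk) x, hpow]) ?_
    have h2 := h1 j l (by omega)
    rw [nm_cast, ← Complex.ofReal_pow] at h2
    exact h2
  · have : IsEmpty (Fin ((Y j).b k)) := by
      rw [h.1 j k hok]
      infer_instance
    rw [Finset.univ_eq_empty, Finset.sum_empty, Complex.zero_re, mul_zero]

variable {S : ι → ℕ → Type} [∀ j k, Fintype (S j k)] [∀ j k, DecidableEq (S j k)]
  [∀ j k, MulAction (GK K) (S j k)]

/-- the even traces -/
theorem even_trace (hS : ∀ j, IsPermutationEven (Y j) (S j))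
    {σ : HeightOneSpectrum (𝓞 K) → GK K} (hσ : ∀ v, IsFrob v (σ v)) :
    ∀ᶠ v in cofinite, ∀ j, ∀ k ≤ (Y j).d, (Y j).t (2 * k) v = fixS (S j k) (σ v) := by
  rw [Filter.eventually_all]
  intro j
  refine (hS j).frob.mono fun v hv k hk => ?_
  obtain ⟨α, hα, h1⟩ := hv (σ v) (hσ v)
  have hq : (0 : ℝ) < nm K v := by exact_mod_cast nm_pos v
  have hpow : (nm K v : ℝ) ^ (((2 * k : ℕ) : ℝ) / 2) = (nm K v : ℝ) ^ k := by
    have : (((2 * k : ℕ) : ℝ) / 2) = (k : ℝ) := by push_cast; ring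
    rw [this, Real.rpow_natCast]
  have e1 := congrArg Multiset.sum (h1 k hk)
  rw [Multiset.sum_map_mul_left, Multiset.map_id', sum_permEigenvalues, fixS_inv] at e1
  have e2 : ∑ x, α (2 * k) x = (Ideal.absNorm v.asIdeal : ℂ) ^ k * (fixS (S j k) (σ v) : ℂ) := e1
  rw [sum_eq (by omega) (hα (2 * k) (by omega)), hpow, nm_cast] at e2
  have e3 : (Y j).t (2 * k) v * (nm K v : ℝ) ^ k = (fixS (S j k) (σ v)) * (nm K v : ℝ) ^ k := by
    have : (((Y j).t (2 * k) v * (nm K v : ℝ) ^ k : ℝ) : ℂ) =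
        (((fixS (S j k) (σ v)) * (nm K v : ℝ) ^ k : ℝ) : ℂ) := by
      refine Eq.trans e2 ?_
      push_cast
      ring
    exact Complex.ofReal_injective this
  exact mul_right_cancel₀ (pow_pos hq k).ne' e3

variable (Y S) in
instance finite_index (n : ℕ) : Finite {k : ι → ℕ // (∀ j, k j ≤ (Y j).d) ∧ ∑ j, k j = n} := by
  refine Finite.of_injective (β := (j : ι) → Fin ((Y j).d + 1))
    (fun k j => ⟨k.1 j, Nat.lt_succ_of_le (k.2.1 j)⟩) ?_
  intro k k' h
  refine Subtype.ext (funext fun j => ?_)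
  have := congrFun h j
  exact Fin.mk.inj_iff.1 this

/-- the fixed points in the basis -/
theorem fixS_basis (n : ℕ) (σ : GK K) (T : Fintype {k : ι → ℕ // (∀ j, k j ≤ (Y j).d) ∧ ∑ j, k j = n}) :
    fixS (EvenBasis Y S n) σ =
      ∑ k : {k : ι → ℕ // (∀ j, k j ≤ (Y j).d) ∧ ∑ j, k j = n}, ∏ j, fixS (S j (k.1 j)) σ := by
  have e : {x : EvenBasis Y S n // σ • x = x} ≃
      Σ k : {k : ι → ℕ // (∀ j, k j ≤ (Y j).d) ∧ ∑ j, k j = n},
        (j : ι) → {s : S j (k.1 j) // σ • s = s} :=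
    { toFun := fun x => ⟨x.1.1, fun j => ⟨x.1.2 j, by
        have h := x.2
        have h1 : (⟨x.1.1, σ • x.1.2⟩ : EvenBasis Y S n) = ⟨x.1.1, x.1.2⟩ := h
        have h2 := eq_of_heq (Sigma.mk.inj h1).2
        exact congrFun h2 j⟩⟩
      invFun := fun y => ⟨⟨y.1, fun j => (y.2 j).1⟩, by
        have : σ • (fun j => (y.2 j).1 : (j : ι) → S j (y.1.1 j)) = fun j => (y.2 j).1 :=
          funext fun j => (y.2 j).2
        change (⟨y.1, σ • (fun j => (y.2 j).1 : (j : ι) → S j (y.1.1 j))⟩ : EvenBasis Y S n) = _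
        rw [this]⟩
      left_inv := fun x => rfl
      right_inv := fun y => rfl }
  unfold fixS
  rw [Nat.card_congr e, Nat.card_sigma]
  refine Finset.sum_congr rfl fun k _ => ?_
  rw [Nat.card_pi]

/-- the action on the basis is continuous -/
theorem cont_basis (hS : ∀ j, IsPermutationEven (Y j) (S j)) (n : ℕ) :
    ∃ U : Subgroup (GK K), IsOpen (U : Set (GK K)) ∧ ∀ u ∈ U, ∀ s : EvenBasis Y S n, u • s = s := by
  choose U hU1 hU2 using fun j k => (hS j).cont k
  set D := ∑ j, (Y j).d with hD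
  refine ⟨⨅ p : ι × Fin (D + 1), U p.1 p.2, ?_, ?_⟩
  · rw [Subgroup.coe_iInf]
    exact isOpen_iInter_of_finite fun p => hU1 _ _
  · rintro u hu ⟨k, s⟩
    have h1 : u • s = s := by
      funext j
      have h2 : k.1 j < D + 1 :=
        Nat.lt_succ_of_le ((k.2.1 j).trans (Finset.single_le_sum (f := fun j => (Y j).d)
          (fun _ _ => Nat.zero_le _) (Finset.mem_univ j)))
      have h3 : u ∈ U j (k.1 j) := (Subgroup.mem_iInf.1 hu) (j, ⟨k.1 j, h2⟩)
      exact hU2 j (k.1 j) u h3 (s j)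
    change (⟨k, u • s⟩ : EvenBasis Y S n) = _
    rw [h1]

/-- **Poles in the even degrees.** -/
theorem powers_even (hS : ∀ j, IsPermutationEven (Y j) (S j)) (h1 : IsOneOdd Y) {n : ℕ}
    {B : HeightOneSpectrum (𝓞 K) → ℂ[X]} (hB : IsMultiSystem Y (2 * n) B) :
    (∀ η : ℝ, 0 < η → ∀ᶠ ε : ℝ in 𝓝[>] 0,
      (Nat.card (MulAction.orbitRel.Quotient (GK K) (EvenBasis Y S n)) : ℝ) - η ≤
        size (2 * n) B ε) ∧
    ∀ m : ℤ, HasOrder (2 * n) B m →
      m ≤ -(Nat.card (MulAction.orbitRel.Quotient (GK K) (EvenBasis Y S n)) : ℤ) := by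
  classical
  choose σ hσ using exists_isFrob (F := K)
  let T : Fintype {k : ι → ℕ // (∀ j, k j ≤ (Y j).d) ∧ ∑ j, k j = n} := Fintype.ofFinite _
  set r := Nat.card (MulAction.orbitRel.Quotient (GK K) (EvenBasis Y S n)) with hr
  have hfin : Finite (EvenBasis Y S n) := inferInstance
  obtain ⟨Y₀, w, h0⟩ := h1
  have hlow : ∀ᶠ v in cofinite, (fixS (EvenBasis Y S n) (σ v) : ℝ) ≤ MT Y (2 * n) v := by
    refine (even_trace hS hσ).mono fun v hv => ?_
    have hcoh : ∃ e : ℝ, (e = 1 ∨ e = -1) ∧ ∀ j, ∀ k ≤ 2 * (Y j).d,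
        (Even k → 0 ≤ (Y j).t k v) ∧ (Odd k → 0 ≤ e * (Y j).t k v) := by
      have hev : ∀ j, ∀ k ≤ 2 * (Y j).d, Even k → 0 ≤ (Y j).t k v := by
        intro j k hk hek
        obtain ⟨l, rfl⟩ := hek
        rw [← two_mul, hv j l (by omega)]
        exact Nat.cast_nonneg _
      have hodd : ∀ e : ℝ, 0 ≤ e * Y₀.t w v → ∀ j, ∀ k, Odd k → 0 ≤ e * (Y j).t k v := by
        intro e he j k hok
        by_cases hb : (Y j).b k = 0
        · have h3 := (Y j).abs_t k v
          rw [hb, Nat.cast_zero] at h3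
          rw [abs_eq_zero.1 (le_antisymm h3 (abs_nonneg _)), mul_zero]
        · obtain ⟨e1, e2⟩ := h0 j k hok hb
          rw [e1, e2]
          exact he
      rcases le_total 0 (Y₀.t w v) with h2 | h2
      · exact ⟨1, Or.inl rfl, fun j k hk => ⟨hev j k hk, fun hok => hodd 1 (by linarith) j k hok⟩⟩
      · exact ⟨-1, Or.inr rfl, fun j k hk => ⟨hev j k hk, fun hok => hodd (-1) (by linarith) j k hok⟩⟩
    obtain ⟨e, he, hc⟩ := hcoh
    rw [fixS_basis n (σ v) T]
    have hinj : Function.Injective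
        (fun k : {k : ι → ℕ // (∀ j, k j ≤ (Y j).d) ∧ ∑ j, k j = n} => fun j => 2 * k.1 j) := by
      intro k k' h
      refine Subtype.ext (funext fun j => ?_)
      have := congrFun h j
      simp only at this
      omega
    have hsub : Finset.univ.image
        (fun k : {k : ι → ℕ // (∀ j, k j ≤ (Y j).d) ∧ ∑ j, k j = n} => fun j => 2 * k.1 j) ⊆
        multidegrees Y (2 * n) := by
      intro k hk
      obtain ⟨k', -, rfl⟩ := Finset.mem_image.1 hk
      unfold multidegrees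
      rw [Finset.mem_filter, Fintype.mem_piFinset]
      refine ⟨fun j => ?_, ?_⟩
      · rw [Finset.mem_range]
        have := k'.2.1 j
        omega
      · rw [← Finset.mul_sum, k'.2.2]
    unfold MT
    refine le_trans (le_of_eq ?_) (Finset.sum_le_sum_of_subset_of_nonneg hsub
      fun k hk _ => prod_nonneg he hc hk)
    rw [Finset.sum_image (fun a _ b _ hab => hinj hab)]
    push_cast
    refine Finset.sum_congr rfl fun k _ => Finset.prod_congr rfl fun j _ => ?_
    exact (hv j (k.1 j) (k.2.1 j)).symm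
  have hsz := multi_size Y (2 * n) hB
  have hfix : ∀ v, |(fixS (EvenBasis Y S n) (σ v) : ℝ)| ≤ (Nat.card (EvenBasis Y S n) : ℝ) :=
    fun v => by
    rw [abs_of_nonneg (Nat.cast_nonneg _)]
    exact_mod_cast fixS_le (EvenBasis Y S n) (σ v)
  have h2 : ∀ η : ℝ, 0 < η → ∀ᶠ ε : ℝ in 𝓝[>] 0, (r : ℝ) - η ≤ size (2 * n) B ε := by
    intro η hη
    have h3 := EP_lower (φ := MT Y (2 * n)) (ψ := fun v => (fixS (EvenBasis Y S n) (σ v) : ℝ))
      (abs_MT Y (2 * n)) hfix hlow (by positivity : 0 < η / 3)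
    have h4 := cheb_perm (EvenBasis Y S n) (cont_basis hS n) σ hσ
    filter_upwards [h3, hsz.2.eventually_lt_const (by positivity : 0 < η / 3),
      h4.eventually_const_lt (by linarith : (r : ℝ) - η / 3 < r)] with ε a1 a2 a3
    linarith
  refine ⟨h2, fun m hm => ?_⟩
  have hm' : HasOrder (2 * n) B (-(-m)) := by rwa [neg_neg]
  have h4 := size_lim hsz.1 hm'
  have h5 : (r : ℝ) ≤ ((-m : ℤ) : ℝ) := le_of_forall_pos_le_add fun η hη => by
    have := ge_of_tendsto h4 (h2 η hη)
    linarith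
  have h6 : (r : ℤ) ≤ -m := by exact_mod_cast h5
  omega

end

end Pool.Agent.J4.H34.ED
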