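import Pool.Agent.J4.H34.ED.KummerDefs

/-!
# Products of varieties whose odd cohomology comes from one cohomology group: definitions

`Y_j`, `j ∈ ι`, are finitely many smooth projective varieties over a number field `K`.
-/

set_option autoImplicit false

namespace Pool.Agent.J4.H34.ED

open NumberField IsDedekindDomain Filter Topology Polynomial
open Pool.Agent.W353.EF (IsFrobenius)
open Pool.Agent.W353.TD (IsFrobeniusElement)

section
variable {K : Type} [Field K] [NumberField K] {ι : Type} [Fintype ι]

/-- At almost all primes there is a sign `e = 1` or `e = -1` such that for all `j` the traces of Frobenius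
on the even cohomology of `Y_j` are nonnegative, and the traces on the odd cohomology of `Y_j` are
nonnegative after multiplication by `e`.  (The traces are real.) -/
def IsCoherent (Y : ι → Variety K) : Prop :=
  ∀ᶠ v : HeightOneSpectrum (𝓞 K) in cofinite, ∃ (e : ℝ) (α : (j : ι) → (k : ℕ) → Fin ((Y j).b k) → ℂ),
    (e = 1 ∨ e = -1) ∧ (∀ j, (Y j).IsFrob v (α j)) ∧ ∀ j, ∀ k ≤ 2 * (Y j).d,
      (Even k → 0 ≤ (∑ x, α j k x).re) ∧ (Odd k → 0 ≤ e * (∑ x, α j k x).re)

/-- The odd cohomology of all the `Y_j` vanishes, and at almost all primes at least half of the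
eigenvalues of Frobenius on `H^{2k}(Y_j)` are equal to `q^k`, for all `j` and `k`.  For example, the `Y_j`
are K3 surfaces over `K` with at least eleven independent classes of divisors defined over `K`. -/
def IsHalfTate (Y : ι → Variety K) : Prop :=
  (∀ j k, Odd k → (Y j).b k = 0) ∧
  ∀ᶠ v : HeightOneSpectrum (𝓞 K) in cofinite, ∃ α : (j : ι) → (k : ℕ) → Fin ((Y j).b k) → ℂ,
    (∀ j, (Y j).IsFrob v (α j)) ∧ ∀ j, ∀ k ≤ (Y j).d,
      (Y j).b (2 * k) ≤ 2 * Nat.card {x // α j (2 * k) x = (Ideal.absNorm v.asIdeal : ℂ) ^ k}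

/-- `H^{2k}(Y) = ℚ_ℓ(-k)^{S_k}` for finite sets `S_k`, `0 ≤ k ≤ dim Y`, with a continuous action of the
absolute Galois group: at almost all primes `v`, and for all arithmetic Frobenius elements `σ` at `v`,
the eigenvalues of the geometric Frobenius on `H^{2k}(Y)` are those of the permutation `σ⁻¹` of `S_k`,
multiplied by `q^k`.  For example, `S_k` is a basis of `H^{2k}(Y)(k)` which consists of classes of
algebraic cycles and is permuted by the Galois group. -/
structure IsPermutationEven (Y : Variety K) (S : ℕ → Type) [∀ k, Fintype (S k)]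
    [∀ k, DecidableEq (S k)] [∀ k, MulAction Gal(AlgebraicClosure K/K) (S k)] : Prop where
  /-- the action of the Galois group is continuous -/
  cont : ∀ k, ∃ U : Subgroup Gal(AlgebraicClosure K/K),
    IsOpen (U : Set Gal(AlgebraicClosure K/K)) ∧ ∀ u ∈ U, ∀ s : S k, u • s = s
  /-- the eigenvalues of Frobenius -/
  frob : ∀ᶠ v : HeightOneSpectrum (𝓞 K) in cofinite, ∀ σ : Gal(AlgebraicClosure K/K),
    IsFrobeniusElement v σ → ∃ α : (k : ℕ) → Fin (Y.b k) → ℂ, Y.IsFrob v α ∧
      ∀ k ≤ Y.d, Finset.univ.val.map (α (2 * k)) =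
        (permEigenvalues (MulAction.toPerm σ⁻¹ : Equiv.Perm (S k))).map
          (fun z => (Ideal.absNorm v.asIdeal : ℂ) ^ k * z)

/-- The varieties `Y_j` with nonzero odd cohomology are copies of one variety `Y₀`, and the odd
cohomology of `Y₀` is concentrated in one degree `w`. -/
def IsOneOdd (Y : ι → Variety K) : Prop :=
  ∃ (Y₀ : Variety K) (w : ℕ), ∀ j k, Odd k → (Y j).b k ≠ 0 → Y j = Y₀ ∧ k = w

/-- The set of all pairs `(k, s)` of a family `k` of integers `0 ≤ k_j ≤ dim Y_j` with `∑ k_j = n` and a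
family `s` of elements `s_j ∈ S_{j,k_j}`: the products of the elements of the bases of the even
cohomology groups that are in `H^{2n}(∏ Y_j)`. -/
abbrev EvenBasis (Y : ι → Variety K) (S : ι → ℕ → Type) (n : ℕ) : Type :=
  Σ k : {k : ι → ℕ // (∀ j, k j ≤ (Y j).d) ∧ ∑ j, k j = n}, (j : ι) → S j (k.1 j)

end

end Pool.Agent.J4.H34.ED
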