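import Pool.Agent.J4.H34.ED.Defs
import Pool.Agent.J4.H34.ED.Plain

/-! The sizes of the `L`-functions of a product of two varieties. -/

set_option autoImplicit false

namespace Pool.Agent.J4.H34.ED

open Complex Filter Topology ComplexConjugate NumberField IsDedekindDomain Polynomial
open Pool.Agent.W540.BE Pool.Agent.W353.L1 Pool.Agent.W401.Cheb
open Pool.Agent.H341R2 (lam lam_tendsto)
open Pool.Agent.W353.PV (Eig alp tF pick_spec)
open Pool.Agent.W353.EF (IsFrobenius LFun size HasOrder)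

section
variable {K : Type} [Field K] [NumberField K] {n n' : ℕ}
  {X : Set (MvPolynomial (Fin n) (𝓞 K))} {X' : Set (MvPolynomial (Fin n') (𝓞 K))}
  {d d' : ℕ} {b b' : ℕ → ℕ}

theorem nm_cast (v : HeightOneSpectrum (𝓞 K)) :
    ((Ideal.absNorm v.asIdeal : ℕ) : ℂ) = ((nm K v : ℝ) : ℂ) := by
  push_cast
  rfl

/-- the sum of the eigenvalues and the normalised trace -/
theorem sum_eq {k N : ℕ} (hk : k ≤ 2 * d) {v : HeightOneSpectrum (𝓞 K)} {α : Fin N → ℂ}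
    (h : IsFrobenius X d k v α) :
    ∑ j, α j = ((tF X d k N K v * (nm K v : ℝ) ^ ((k : ℝ) / 2) : ℝ) : ℂ) := by
  have h' : Eig X d k v α := h
  have h3 : Eig X d k v (alp X d k N K v) := pick_spec ⟨α, h'⟩
  have h4 := congrArg Multiset.sum (h'.unique' hk h3)
  change ∑ j, α j = ∑ j, alp X d k N K v j at h4
  have hq : (0 : ℝ) < nm K v := by exact_mod_cast nm_pos v
  have h5 : tF X d k N K v * (nm K v : ℝ) ^ ((k : ℝ) / 2) = (∑ j, alp X d k N K v j).re := by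
    unfold tF tr
    rw [if_pos ⟨fun j => h3.norm j, h3.im hk⟩, mul_assoc, ← Real.rpow_add hq, neg_add_cancel,
      Real.rpow_zero, mul_one]
  rw [h4, h5]
  apply Complex.ext
  · simp
  · rw [Complex.ofReal_im, h3.im hk]

theorem norm_eig {k N : ℕ} {v : HeightOneSpectrum (𝓞 K)} {α : Fin N → ℂ}
    (h : IsFrobenius X d k v α) (j : Fin N) : ‖α j‖ = (nm K v : ℝ) ^ ((k : ℝ) / 2) :=
  Eig.norm (h : Eig X d k v α) j

/-- duality for the normalised traces -/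
theorem tF_dual {v : HeightOneSpectrum (𝓞 K)} {α : (k : ℕ) → Fin (b k) → ℂ}
    (h : IsCohomology X d b v α) {k : ℕ} (hk : k ≤ 2 * d) :
    tF X d (2 * d - k) (b (2 * d - k)) K v = tF X d k (b k) K v := by
  have hq : (0 : ℝ) < nm K v := by exact_mod_cast nm_pos v
  have h1 := sum_eq hk (h.2 k hk).1
  have h2 := sum_eq (Nat.sub_le (2 * d) k) (h.2 (2 * d - k) (Nat.sub_le _ _)).1
  have h3 := congrArg Multiset.sum (h.2 k hk).2
  change ∑ j, α (2 * d - k) j = ∑ j, (Ideal.absNorm v.asIdeal : ℂ) ^ d / α k j at h3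
  -- `q ^ d / α = q ^ (d - k) conj α`
  have hw : ∀ j, ‖α k j‖ = (nm K v : ℝ) ^ ((k : ℝ) / 2) := norm_eig (h.2 k hk).1
  have hsq : ((nm K v : ℝ) ^ ((k : ℝ) / 2)) * ((nm K v : ℝ) ^ ((k : ℝ) / 2)) =
      (nm K v : ℝ) ^ (k : ℝ) := by
    rw [← Real.rpow_add hq]
    congr 1
    ring
  have h4 : ∀ j, (Ideal.absNorm v.asIdeal : ℂ) ^ d / α k j =
      (((nm K v : ℝ) ^ ((d : ℝ) - k) : ℝ) : ℂ) * conj (α k j) := by
    intro j
    have hne : α k j ≠ 0 := by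
      intro h0
      have := hw j
      rw [h0, norm_zero] at this
      exact (Real.rpow_pos_of_pos hq _).ne this
    rw [div_eq_iff hne, mul_assoc, mul_comm (conj (α k j)), Complex.mul_conj,
      Complex.normSq_eq_norm_sq, hw j, sq, hsq, nm_cast, ← Complex.ofReal_pow,
      ← Complex.ofReal_mul, ← Real.rpow_add hq]
    congr 1
    rw [sub_add_cancel, Real.rpow_natCast]
  have h5 : ∑ j, (Ideal.absNorm v.asIdeal : ℂ) ^ d / α k j =
      (((nm K v : ℝ) ^ ((d : ℝ) - k) * (tF X d k (b k) K v * (nm K v : ℝ) ^ ((k : ℝ) / 2)) : ℝ) :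
        ℂ) := by
    rw [Finset.sum_congr rfl fun j _ => h4 j, ← Finset.mul_sum, ← map_sum, h1,
      Complex.conj_ofReal, ← Complex.ofReal_mul]
  rw [h2, h5] at h3
  have h6 := Complex.ofReal_injective h3
  have h7 : (nm K v : ℝ) ^ ((d : ℝ) - k) * (tF X d k (b k) K v * (nm K v : ℝ) ^ ((k : ℝ) / 2)) =
      tF X d k (b k) K v * (nm K v : ℝ) ^ (((2 * d - k : ℕ) : ℝ) / 2) := by
    have e : (nm K v : ℝ) ^ (((2 * d - k : ℕ) : ℝ) / 2) =
        (nm K v : ℝ) ^ ((d : ℝ) - k) * (nm K v : ℝ) ^ ((k : ℝ) / 2) := by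
      rw [← Real.rpow_add hq]
      congr 1
      rw [Nat.cast_sub hk]
      push_cast
      ring
    rw [e]
    ring
  rw [h7] at h6
  exact mul_right_cancel₀ (Real.rpow_pos_of_pos hq _).ne' h6

/-- the normalised trace on `H^i(Y × Y')` -/
noncomputable def TT (X : Set (MvPolynomial (Fin n) (𝓞 K))) (d : ℕ) (b : ℕ → ℕ)
    (X' : Set (MvPolynomial (Fin n') (𝓞 K))) (d' : ℕ) (b' : ℕ → ℕ) (i : ℕ)
    (v : HeightOneSpectrum (𝓞 K)) : ℝ :=
  ∑ k ∈ degrees d d' i, tF X d k.1 (b k.1) K v * tF X' d' k.2 (b' k.2) K v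

theorem abs_TT (i : ℕ) (v : HeightOneSpectrum (𝓞 K)) : |TT X d b X' d' b' i v| ≤
    ∑ k ∈ degrees d d' i, (b k.1 : ℝ) * b' k.2 := by
  unfold TT
  refine (Finset.abs_sum_le_sum_abs _ _).trans (Finset.sum_le_sum fun k _ => ?_)
  rw [abs_mul]
  exact mul_le_mul (abs_tr_le _ _ _) (abs_tr_le _ _ _) (abs_nonneg _) (Nat.cast_nonneg _)

/-- the index set of the eigenvalues on `H^i(Y × Y')` -/
abbrev Ind (d : ℕ) (b : ℕ → ℕ) (d' : ℕ) (b' : ℕ → ℕ) (i : ℕ) : Type :=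
  Σ k : degrees d d' i, Fin (b k.1.1) × Fin (b' k.1.2)

open Classical in
/-- chosen eigenvalues -/
noncomputable def ch (X : Set (MvPolynomial (Fin n) (𝓞 K))) (d : ℕ) (b : ℕ → ℕ)
    (X' : Set (MvPolynomial (Fin n') (𝓞 K))) (d' : ℕ) (b' : ℕ → ℕ) (i : ℕ)
    (B : HeightOneSpectrum (𝓞 K) → ℂ[X]) (v : HeightOneSpectrum (𝓞 K)) :
    ((k : ℕ) → Fin (b k) → ℂ) × ((k : ℕ) → Fin (b' k) → ℂ) :=
  if h : ∃ p : ((k : ℕ) → Fin (b k) → ℂ) × ((k : ℕ) → Fin (b' k) → ℂ),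
    IsCohomology X d b v p.1 ∧ IsCohomology X' d' b' v p.2 ∧
    ∀ z : ℂ, (B v).eval z =
      ∏ k ∈ degrees d d' i, ∏ j, ∏ l, (1 - p.1 k.1 j * p.2 k.2 l * z)
  then h.choose else 0

theorem ch_spec {i : ℕ} {B : HeightOneSpectrum (𝓞 K) → ℂ[X]} {v : HeightOneSpectrum (𝓞 K)}
    (h : ∃ (α : (k : ℕ) → Fin (b k) → ℂ) (β : (k : ℕ) → Fin (b' k) → ℂ),
      IsCohomology X d b v α ∧ IsCohomology X' d' b' v β ∧
      ∀ z : ℂ, (B v).eval z =
        ∏ k ∈ degrees d d' i, ∏ j, ∏ l, (1 - α k.1 j * β k.2 l * z)) :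
    IsCohomology X d b v (ch X d b X' d' b' i B v).1 ∧
    IsCohomology X' d' b' v (ch X d b X' d' b' i B v).2 ∧
    ∀ z : ℂ, (B v).eval z =
      ∏ k ∈ degrees d d' i, ∏ j, ∏ l,
        (1 - (ch X d b X' d' b' i B v).1 k.1 j * (ch X d b X' d' b' i B v).2 k.2 l * z) := by
  have h' : ∃ p : ((k : ℕ) → Fin (b k) → ℂ) × ((k : ℕ) → Fin (b' k) → ℂ),
      IsCohomology X d b v p.1 ∧ IsCohomology X' d' b' v p.2 ∧
      ∀ z : ℂ, (B v).eval z =
        ∏ k ∈ degrees d d' i, ∏ j, ∏ l, (1 - p.1 k.1 j * p.2 k.2 l * z) := by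
    obtain ⟨α, β, h⟩ := h
    exact ⟨(α, β), h⟩
  unfold ch
  rw [dif_pos h']
  exact h'.choose_spec

theorem mem_degrees {i : ℕ} {k : ℕ × ℕ} (h : k ∈ degrees d d' i) :
    k.1 ≤ 2 * d ∧ k.2 ≤ 2 * d' ∧ k.1 + k.2 = i := by
  unfold degrees at h
  rw [Finset.mem_filter, Finset.mem_product, Finset.mem_range, Finset.mem_range] at h
  omega

/-- **The size of the `L`-function of `H^i(Y × Y')`.** -/
theorem product_size (i : ℕ) {B : HeightOneSpectrum (𝓞 K) → ℂ[X]}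
    (hB : IsProductSystem X d b X' d' b' i B) :
    (∀ᶠ ε : ℝ in 𝓝[>] 0, LFun B ((i : ℂ) / 2 + 1 + ε) ≠ 0) ∧
    Tendsto (fun ε : ℝ => EP (nm K) ε (TT X d b X' d' b' i) / lam ε - size i B ε)
      (𝓝[>] 0) (𝓝 0) := by
  classical
  have e0 : (((i : ℝ) / 2 : ℝ) : ℂ) = (i : ℂ) / 2 := by push_cast; rfl
  have hpos : ∀ v : HeightOneSpectrum (𝓞 K), (0 : ℝ) < nm K v := fun v => by
    exact_mod_cast nm_pos v
  have hmul : ∀ (v : HeightOneSpectrum (𝓞 K)) (k : ℕ × ℕ), k.1 + k.2 = i →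
      (nm K v : ℝ) ^ ((k.1 : ℝ) / 2) * (nm K v : ℝ) ^ ((k.2 : ℝ) / 2) =
      (nm K v : ℝ) ^ ((i : ℝ) / 2) := by
    intro v k hk
    rw [← Real.rpow_add (hpos v)]
    congr 1
    rw [← hk]
    push_cast
    ring
  have h := size_fintype (κ := Ind d b d' b' i) ((i : ℝ) / 2)
    (fun v x => (ch X d b X' d' b' i B v).1 x.1.1.1 x.2.1 *
      (ch X d b X' d' b' i B v).2 x.1.1.2 x.2.2) B (T := TT X d b X' d' b' i) (fun v => abs_TT i v)
    (by
      refine hB.1.mono fun v hv => ?_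
      obtain ⟨h1, h2, h3⟩ := ch_spec hv
      refine ⟨fun x => ?_, ?_, fun z => ?_⟩
      · obtain ⟨g1, g2, g3⟩ := mem_degrees x.1.2
        rw [norm_mul, norm_eig (h1.2 _ g1).1, norm_eig (h2.2 _ g2).1, hmul v _ g3]
      · rw [Fintype.sum_sigma]
        have e1 : ∀ k : degrees d d' i, ∑ y : Fin (b k.1.1) × Fin (b' k.1.2),
            (ch X d b X' d' b' i B v).1 k.1.1 y.1 * (ch X d b X' d' b' i B v).2 k.1.2 y.2 =
            ((tF X d k.1.1 (b k.1.1) K v * tF X' d' k.1.2 (b' k.1.2) K v *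
              (nm K v : ℝ) ^ ((i : ℝ) / 2) : ℝ) : ℂ) := by
          intro k
          obtain ⟨g1, g2, g3⟩ := mem_degrees k.2
          rw [Fintype.sum_prod_type]
          simp only
          rw [← Finset.sum_mul_sum, sum_eq g1 (h1.2 _ g1).1, sum_eq g2 (h2.2 _ g2).1,
            ← Complex.ofReal_mul, ← hmul v _ g3]
          congr 1
          ring
        rw [Finset.sum_congr rfl fun k _ => e1 k, ← Complex.ofReal_sum, ← Finset.sum_mul]
        unfold TT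
        rw [Finset.sum_coe_sort (degrees d d' i)
          fun k => tF X d k.1 (b k.1) K v * tF X' d' k.2 (b' k.2) K v]
      · rw [h3 z, Fintype.prod_sigma, ← Finset.prod_coe_sort (degrees d d' i)]
        refine Finset.prod_congr rfl fun k _ => ?_
        rw [Fintype.prod_prod_type])
    (by
      rw [e0]
      exact hB.2)
  rw [e0] at h
  exact h

end

end Pool.Agent.J4.H34.ED
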